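import Pool.Agent.Q197.OT.Prob

/-!
# Almost sure facts about the counts
-/

set_option autoImplicit false
set_option linter.unusedSectionVars false

namespace Pool.Agent.Q197.OT

open Finset MeasureTheory Filter Pool.Agent.Q120.ET Pool.Agent.Q120.MF Pool.Agent.Q120.AD Pool.Agent.Q120.NC
  Pool.Agent.Q120.TD
open scoped Topology

variable {Ω : Type*} [MeasurableSpace Ω] {μ : Measure Ω} [IsProbabilityMeasure μ] {A : Ω → Set ℕ}

theorem rpow_top {x : ℝ} (hx : 0 < x) : Tendsto (fun n : ℕ => (n : ℝ) ^ x) atTop atTop :=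
  (tendsto_rpow_atTop hx).comp tendsto_natCast_atTop_atTop

theorem exp_small {x : ℝ} (hx : 0 < x) {c : ℝ} (hc : 0 < c) : ∀ᶠ n : ℕ in atTop, Real.exp (-(c * (n : ℝ) ^ x)) ≤ (n : ℝ) ^ (-2 : ℝ) := by
  have h1 : Tendsto (fun n : ℕ => Real.log (n : ℝ) / (n : ℝ) ^ x) atTop (𝓝 0) :=
    ((isLittleO_log_rpow_atTop hx).tendsto_div_nhds_zero).comp tendsto_natCast_atTop_atTop
  filter_upwards [h1.eventually_lt_const (show 0 < c / 2 by positivity), eventually_gt_atTop 0] with n h2 h3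
  have hn0 : (0 : ℝ) < n := by exact_mod_cast h3
  rw [div_lt_iff₀ (Real.rpow_pos_of_pos hn0 _)] at h2
  rw [Real.rpow_def_of_pos hn0 (-2), Real.exp_le_exp]
  linarith

/-- **Small counts in all short windows.** -/
theorem ae_win (hA : IsCramer μ A) {lo : ℕ → ℕ} (hlo1 : ∀ i, i ^ 2 - i ≤ lo i) (hlo2 : ∀ i, lo i ≤ i ^ 2)
    (hd : ∀ i j, 3 ≤ i → i < j → lo i + i < lo j) {t δ : ℝ} (ht : 0 < t) (hδ : 0 < δ) (h1 : t ^ 2 + δ ≤ 1) :
    ∀ᵐ ω ∂μ, ∀ᶠ Y : ℕ in atTop, ∃ n : ℕ, Y < n ∧ (n : ℝ) ≤ Y + (Y : ℝ) ^ (t ^ 2 + δ) ∧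
      ((tr A (opp lo n) ω).card : ℝ) ≤ Gt t n := by
  classical
  have hW := opp_three hlo1
  have hdis := opp_disjoint hd
  obtain ⟨B, hB⟩ : ∃ B : ℕ → Set Ω, B = fun (Y : ℕ) =>
    {ω | ∀ n ∈ Ioc Y (Y + ⌊(Y : ℝ) ^ (t ^ 2 + δ)⌋₊), ¬ ((tr A (opp lo n) ω).card : ℝ) ≤ Gt t n} := ⟨_, rfl⟩
  have hs : Summable (fun i : ℕ => (i : ℝ) ^ (-2 : ℝ)) := Real.summable_nat_rpow.2 (by norm_num)
  have hp := low_ge hlo1 hlo2 hd ht (show 0 < δ / 2 by positivity)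
  obtain ⟨n0, hn0⟩ := eventually_atTop.1 hp
  have hbound : ∀ᶠ Y : ℕ in atTop, μ.real (B Y) ≤ (Y : ℝ) ^ (-2 : ℝ) := by
    filter_upwards [exp_small (show 0 < δ / 2 by positivity) (show (0 : ℝ) < 1 / 4 by norm_num), eventually_ge_atTop n0,
      eventually_ge_atTop 3, (rpow_top (show 0 < t ^ 2 + δ by positivity)).eventually_ge_atTop 2] with Y h2 h3 h4 h5
    have hY1 : (1 : ℝ) ≤ Y := by exact_mod_cast (by omega : 1 ≤ Y)
    have hY0 : (0 : ℝ) < Y := by linarith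
    rw [hB]
    show μ.real {ω | ∀ n ∈ Ioc Y (Y + ⌊(Y : ℝ) ^ (t ^ 2 + δ)⌋₊), ¬ ((tr A (opp lo n) ω).card : ℝ) ≤ Gt t n} ≤ _
    rw [real_all hA (Ioc Y (Y + ⌊(Y : ℝ) ^ (t ^ 2 + δ)⌋₊)) (opp lo) (fun i _ => hW i) (fun i _ j _ hij => hdis i j hij)
      (fun n T => ¬ (T.card : ℝ) ≤ Gt t n)]
    refine le_trans ?_ h2
    have hterm : ∀ n ∈ Ioc Y (Y + ⌊(Y : ℝ) ^ (t ^ 2 + δ)⌋₊),
        ∑ T ∈ (opp lo n).powerset with ¬ (T.card : ℝ) ≤ Gt t n, cramerOn (opp lo n) T ≤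
          Real.exp (-(1 / 2 * (Y : ℝ) ^ (-(t ^ 2 + δ / 2)))) := by
      intro n hn
      rw [mem_Ioc] at hn
      have e1 := hn0 n (by omega)
      have e2 := sum_filter_add_sum_filter_not (opp lo n).powerset (fun T => (T.card : ℝ) ≤ Gt t n) (cramerOn (opp lo n))
      rw [sum_cramerOn] at e2
      have e3 : (Y : ℝ) ^ (t ^ 2 + δ) ≤ Y := by
        calc (Y : ℝ) ^ (t ^ 2 + δ) ≤ (Y : ℝ) ^ (1 : ℝ) := Real.rpow_le_rpow_of_exponent_le hY1 h1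
          _ = Y := Real.rpow_one _
      have e4 : (n : ℝ) ≤ 2 * Y := by
        have e5 : (n : ℝ) ≤ Y + ⌊(Y : ℝ) ^ (t ^ 2 + δ)⌋₊ := by exact_mod_cast hn.2
        have e6 := Nat.floor_le (show 0 ≤ (Y : ℝ) ^ (t ^ 2 + δ) by linarith)
        linarith
      have hn0' : (0 : ℝ) < n := by exact_mod_cast (by omega : 0 < n)
      have e7 : 1 / 2 * (Y : ℝ) ^ (-(t ^ 2 + δ / 2)) ≤ (n : ℝ) ^ (-(t ^ 2 + δ / 2)) := by
        have e8 : (2 * (Y : ℝ)) ^ (-(t ^ 2 + δ / 2)) ≤ (n : ℝ) ^ (-(t ^ 2 + δ / 2)) :=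
          Real.rpow_le_rpow_of_nonpos hn0' e4 (by nlinarith [sq_nonneg t])
        refine le_trans ?_ e8
        rw [Real.mul_rpow (by norm_num) hY0.le]
        refine mul_le_mul_of_nonneg_right ?_ (Real.rpow_nonneg hY0.le _)
        have e9 : (2 : ℝ) ^ (-1 : ℝ) ≤ 2 ^ (-(t ^ 2 + δ / 2)) :=
          Real.rpow_le_rpow_of_exponent_le (by norm_num) (by linarith)
        rw [Real.rpow_neg_one] at e9
        linarith
      have e10 := Real.add_one_le_exp (-(1 / 2 * (Y : ℝ) ^ (-(t ^ 2 + δ / 2))))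
      linarith
    refine (prod_le_prod (fun n _ => sum_nonneg (fun T hT => cramerOn_nonneg (hW n) (mem_powerset.1 (mem_filter.1 hT).1)))
      hterm).trans ?_
    rw [prod_const, Nat.card_Ioc, ← Real.exp_nat_mul, Real.exp_le_exp]
    have e1 : Y + ⌊(Y : ℝ) ^ (t ^ 2 + δ)⌋₊ - Y = ⌊(Y : ℝ) ^ (t ^ 2 + δ)⌋₊ := by omega
    rw [e1]
    have e2 : (Y : ℝ) ^ (t ^ 2 + δ) / 2 ≤ ⌊(Y : ℝ) ^ (t ^ 2 + δ)⌋₊ := by
      have := Nat.lt_floor_add_one ((Y : ℝ) ^ (t ^ 2 + δ))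
      linarith
    have e3 : (Y : ℝ) ^ (t ^ 2 + δ) / 2 * (1 / 2 * (Y : ℝ) ^ (-(t ^ 2 + δ / 2))) = 1 / 4 * (Y : ℝ) ^ (δ / 2) := by
      have e4 : (Y : ℝ) ^ (t ^ 2 + δ) * (Y : ℝ) ^ (-(t ^ 2 + δ / 2)) = (Y : ℝ) ^ (δ / 2) := by
        rw [← Real.rpow_add hY0]
        congr 1
        ring
      rw [← e4]
      ring
    have e5 : 0 ≤ 1 / 2 * (Y : ℝ) ^ (-(t ^ 2 + δ / 2)) := by
      have := Real.rpow_nonneg hY0.le (-(t ^ 2 + δ / 2))
      positivity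
    have e6 := mul_le_mul_of_nonneg_right e2 e5
    rw [e3] at e6
    linarith
  have h2 := ae_eventually_notMem (tsum_ne_top_of_real (μ := μ) hs (f := B) hbound)
  filter_upwards [h2] with ω hω
  filter_upwards [hω, eventually_ge_atTop 1] with Y hY hY1
  rw [hB] at hY
  simp only [Set.mem_ofPred_eq, not_forall, not_not] at hY
  obtain ⟨n, hn, h3⟩ := hY
  rw [mem_Ioc] at hn
  refine ⟨n, hn.1, ?_, h3⟩
  have e5 : (n : ℝ) ≤ Y + ⌊(Y : ℝ) ^ (t ^ 2 + δ)⌋₊ := by exact_mod_cast hn.2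
  have e6 := Nat.floor_le (show 0 ≤ (Y : ℝ) ^ (t ^ 2 + δ) from Real.rpow_nonneg (Nat.cast_nonneg _) _)
  linarith

/-- **The number of small counts.** -/
theorem ae_cnt (hA : IsCramer μ A) {lo : ℕ → ℕ} (hlo1 : ∀ i, i ^ 2 - i ≤ lo i) (hlo2 : ∀ i, lo i ≤ i ^ 2)
    {t δ : ℝ} (ht : 0 < t) (hδ : 0 < δ) (h1 : 0 ≤ 1 - t ^ 2 + δ) :
    ∀ᵐ ω ∂μ, ∃ C : ℝ, 0 ≤ C ∧ ∀ N : ℕ,
      (((Icc 1 N).filter (fun n => ((tr A (opp lo n) ω).card : ℝ) < Gt t n)).card : ℝ) ≤ C * (N : ℝ) ^ (1 - t ^ 2 + δ) := by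
  classical
  have hW := opp_three hlo1
  obtain ⟨e, he⟩ : ∃ e : ℝ, e = 1 - t ^ 2 + δ := ⟨_, rfl⟩
  rw [← he] at h1 ⊢
  obtain ⟨E, hE⟩ : ∃ E : ℕ → Set Ω, E = fun (n : ℕ) => {ω | ((tr A (opp lo n) ω).card : ℝ) < Gt t n} := ⟨_, rfl⟩
  have hEm : ∀ n, MeasurableSet (E n) := by
    intro n
    rw [hE]
    exact measurable_pred hA (opp lo n) (fun T => (T.card : ℝ) < Gt t n)
  have hsum : Summable (fun n : ℕ => (n : ℝ) ^ (-e) * μ.real (E n)) := by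
    have hs : Summable (fun i : ℕ => (i : ℝ) ^ (-(1 + δ / 2))) := Real.summable_nat_rpow.2 (by linarith)
    refine Summable.of_norm_bounded_eventually_nat hs ?_
    filter_upwards [low_le hlo1 hlo2 ht (show 0 < δ / 2 by positivity), eventually_gt_atTop 0] with n h2 h3
    have hn0 : (0 : ℝ) < n := by exact_mod_cast h3
    have h4 := Real.rpow_nonneg hn0.le (-e)
    rw [Real.norm_of_nonneg (mul_nonneg h4 measureReal_nonneg)]
    have h5 : μ.real (E n) ≤ (n : ℝ) ^ (-(t ^ 2 - δ / 2)) := by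
      rw [hE]
      show μ.real {ω | ((tr A (opp lo n) ω).card : ℝ) < Gt t n} ≤ _
      rw [real_pred hA (hW n) (fun T => (T.card : ℝ) < Gt t n)]
      exact h2
    refine (mul_le_mul_of_nonneg_left h5 h4).trans (le_of_eq ?_)
    rw [← Real.rpow_add hn0, he]
    congr 1
    ring
  obtain ⟨g, hg⟩ : ∃ g : ℕ → Ω → ENNReal, g = fun n => (E n).indicator (fun _ => ENNReal.ofReal ((n : ℝ) ^ (-e))) := ⟨_, rfl⟩
  have hgm : ∀ n, Measurable (g n) := by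
    intro n
    rw [hg]
    exact measurable_const.indicator (hEm n)
  have hfin : ∫⁻ ω, ∑' n, g n ω ∂μ ≠ ⊤ := by
    rw [lintegral_tsum (fun n => (hgm n).aemeasurable)]
    have h2 : ∀ n, ∫⁻ ω, g n ω ∂μ = ENNReal.ofReal ((n : ℝ) ^ (-e) * μ.real (E n)) := by
      intro n
      rw [hg]
      show ∫⁻ ω, (E n).indicator (fun _ => ENNReal.ofReal ((n : ℝ) ^ (-e))) ω ∂μ = _
      rw [lintegral_indicator_const (hEm n), ENNReal.ofReal_mul (Real.rpow_nonneg (Nat.cast_nonneg _) _), ofReal_measureReal]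
    simp only [h2]
    exact hsum.tsum_ofReal_ne_top
  have hae := ae_lt_top (Measurable.tsum hgm) hfin
  filter_upwards [hae] with ω hω
  refine ⟨(∑' n, g n ω).toReal, ENNReal.toReal_nonneg, fun N => ?_⟩
  rcases Nat.eq_zero_or_pos N with hN | hN
  · subst hN
    simp only [Nat.cast_zero]
    have : ((Icc 1 0).filter (fun n => ((tr A (opp lo n) ω).card : ℝ) < Gt t n)) = ∅ := by
      rw [Finset.filter_eq_empty_iff]
      intro n hn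
      rw [mem_Icc] at hn
      omega
    rw [this, card_empty, Nat.cast_zero]
    exact mul_nonneg ENNReal.toReal_nonneg (Real.rpow_nonneg le_rfl _)
  have hN0 : (0 : ℝ) < N := by exact_mod_cast hN
  obtain ⟨F, hF⟩ : ∃ F : Finset ℕ, F = (Icc 1 N).filter (fun n => ((tr A (opp lo n) ω).card : ℝ) < Gt t n) := ⟨_, rfl⟩
  rw [← hF]
  have h2 : ∑ n ∈ F, ENNReal.ofReal ((N : ℝ) ^ (-e)) ≤ ∑' n, g n ω := by
    refine le_trans (sum_le_sum (fun n hn => ?_)) (ENNReal.sum_le_tsum F)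
    rw [hF, mem_filter, mem_Icc] at hn
    rw [hg]
    show _ ≤ (E n).indicator (fun _ => ENNReal.ofReal ((n : ℝ) ^ (-e))) ω
    rw [Set.indicator_of_mem (by rw [hE]; exact hn.2)]
    refine ENNReal.ofReal_le_ofReal ?_
    exact Real.rpow_le_rpow_of_nonpos (by exact_mod_cast hn.1.1) (by exact_mod_cast hn.1.2) (by linarith)
  rw [sum_const, nsmul_eq_mul] at h2
  have h3 := ENNReal.toReal_mono hω.ne h2
  rw [ENNReal.toReal_mul, ENNReal.toReal_natCast, ENNReal.toReal_ofReal (Real.rpow_nonneg hN0.le _)] at h3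
  have h4 : 0 < (N : ℝ) ^ e := Real.rpow_pos_of_pos hN0 _
  have h5 := mul_le_mul_of_nonneg_right h3 h4.le
  rw [mul_assoc, ← Real.rpow_add hN0, neg_add_cancel, Real.rpow_zero, mul_one] at h5
  exact h5

end Pool.Agent.Q197.OT
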