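import Pool.Agent.Q197.OT.Cnt

/-!
# The limit points
-/

set_option autoImplicit false
set_option linter.unusedSectionVars false

namespace Pool.Agent.Q197.OT

open Finset Filter
open scoped Topology

variable {u v : ℕ → ℕ}

theorem sqrt_half : (1 : ℝ) / √2 < 1 ∧ 0 < (1 : ℝ) / √2 ∧ (1 / √2) ^ 2 = (1 : ℝ) / 2 := by
  have h1 : (1 / √2) ^ 2 = (1 : ℝ) / 2 := by
    rw [div_pow, one_pow, Real.sq_sqrt (by norm_num)]
  have h2 : (0 : ℝ) < 1 / √2 := by positivity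
  refine ⟨?_, h2, h1⟩
  nlinarith

/-- Infinitely many values in `(a, b]`. -/
theorem freq (F : Facts u v) {a b : ℝ} (ha : 1 / √2 ≤ a) (hab : a < b) (hb : b < 1) :
    ∃ᶠ k : ℕ in atTop, a < th u v k ∧ th u v k ≤ b := by
  classical
  obtain ⟨s1, s2, s3⟩ := sqrt_half
  have ha0 : 0 < a := lt_of_lt_of_le s2 ha
  have hb0 : 0 < b := ha0.trans hab
  have ha2 : 1 / 2 ≤ a ^ 2 := by
    rw [← s3]
    exact pow_le_pow_left₀ s2.le ha 2
  have hab2 : a ^ 2 < b ^ 2 := pow_lt_pow_left₀ hab ha0.le (by norm_num)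
  have hb2 : b ^ 2 < 1 := by nlinarith
  obtain ⟨d, hd⟩ : ∃ d : ℝ, d = (b ^ 2 - a ^ 2) / 4 := ⟨_, rfl⟩
  have hd0 : 0 < d := by rw [hd]; linarith
  intro hcon
  obtain ⟨k1, hk1⟩ := eventually_atTop.1 hcon
  have h1 := count_low F ha0 (hab.trans hb) ha2 hd0
  have h2 := count_up F hb0 hb hd0
  obtain ⟨K, h3, h4, h5, h6⟩ := (h1.and (h2.and ((pow_big (show 0 < d by exact hd0) ((k1 : ℝ) + 2)).and (eventually_ge_atTop 1)))).exists
  have hKr : (1 : ℝ) ≤ K := by exact_mod_cast h6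
  have hKr0 : (0 : ℝ) < K := by linarith
  have hsub : (Icc 1 K).filter (fun k => a < th u v k) ⊆ Icc 1 k1 ∪ (Icc 1 K).filter (fun k => b < th u v k) := by
    intro k hk
    rw [mem_filter, mem_Icc] at hk
    rw [mem_union, mem_Icc, mem_filter, mem_Icc]
    rcases Nat.lt_or_ge k1 k with h7 | h7
    · refine Or.inr ⟨hk.1, ?_⟩
      have h8 := hk1 k h7.le
      by_contra h9
      exact h8 ⟨hk.2, not_lt.1 h9⟩
    · exact Or.inl ⟨hk.1.1, h7⟩
  have h7 := (card_le_card hsub).trans (card_union_le _ _)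
  rw [Nat.card_Icc, Nat.add_sub_cancel] at h7
  have h8 : (((Icc 1 K).filter (fun k => a < th u v k)).card : ℝ) ≤ k1 + (((Icc 1 K).filter (fun k => b < th u v k)).card : ℝ) := by
    exact_mod_cast h7
  have e1 : (K : ℝ) ^ (3 / 2 - a ^ 2 - d) = (K : ℝ) ^ (3 / 2 - b ^ 2 + d) * ((K : ℝ) ^ d * (K : ℝ) ^ d) := by
    rw [← Real.rpow_add hKr0, ← Real.rpow_add hKr0]
    congr 1
    rw [hd]
    ring
  have e2 : 1 ≤ (K : ℝ) ^ (3 / 2 - b ^ 2 + d) := Real.one_le_rpow hKr (by linarith)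
  have e3 : (0 : ℝ) ≤ k1 := Nat.cast_nonneg _
  have e4 : (k1 : ℝ) + 2 ≤ (K : ℝ) ^ d * (K : ℝ) ^ d := by nlinarith
  have e5 : (K : ℝ) ^ (3 / 2 - b ^ 2 + d) * ((k1 : ℝ) + 2) ≤ (K : ℝ) ^ (3 / 2 - a ^ 2 - d) := by
    rw [e1]
    exact mul_le_mul_of_nonneg_left e4 (by linarith)
  have e6 : (K : ℝ) ^ (3 / 2 - b ^ 2 + d) * ((k1 : ℝ) + 2) ≤ k1 + (K : ℝ) ^ (3 / 2 - b ^ 2 + d) := by linarith
  nlinarith

theorem cluster (F : Facts u v) (x : ℝ) : MapClusterPt x atTop (th u v) ↔ 1 / √2 ≤ x ∧ x ≤ 1 := by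
  obtain ⟨s1, s2, s3⟩ := sqrt_half
  rw [mapClusterPt_iff_frequently]
  constructor
  · intro h
    constructor
    · by_contra hcon
      obtain ⟨t, h1, h2⟩ := exists_between (not_le.1 hcon)
      have h3 := h (Set.Iio t) (Iio_mem_nhds h1)
      obtain ⟨k, h4, h5⟩ := (h3.and_eventually (lt_th_ev F h2)).exists
      rw [Set.mem_Iio] at h4
      linarith
    · by_contra hcon
      obtain ⟨t, h1, h2⟩ := exists_between (not_le.1 hcon)
      have h3 := h (Set.Ioi t) (Ioi_mem_nhds h2)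
      obtain ⟨k, h4, h5⟩ := (h3.and_eventually (th_lt F h1)).exists
      rw [Set.mem_Ioi] at h4
      linarith
  · rintro ⟨h1, h2⟩ s hs
    obtain ⟨ε, hε, hball⟩ := Metric.mem_nhds_iff.1 hs
    have key : ∃ a b : ℝ, 1 / √2 ≤ a ∧ a < b ∧ b < 1 ∧ x - ε < a ∧ b < x + ε := by
      rcases lt_or_eq_of_le h2 with h3 | h3
      · refine ⟨x, x + min ε (1 - x) / 2, h1, ?_, ?_, by linarith, ?_⟩
        · have : 0 < min ε (1 - x) := lt_min hε (by linarith)
          linarith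
        · have : min ε (1 - x) ≤ 1 - x := min_le_right _ _
          linarith
        · have : min ε (1 - x) ≤ ε := min_le_left _ _
          linarith
      · have h4 : 0 < min ε (1 - 1 / √2) := lt_min hε (by linarith)
        have h5 : min ε (1 - 1 / √2) ≤ ε := min_le_left _ _
        have h6 : min ε (1 - 1 / √2) ≤ 1 - 1 / √2 := min_le_right _ _
        refine ⟨1 - min ε (1 - 1 / √2) / 2, 1 - min ε (1 - 1 / √2) / 4, ?_, ?_, ?_, ?_, ?_⟩ <;> linarith
    obtain ⟨a, b, g1, g2, g3, g4, g5⟩ := key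
    refine (freq F g1 g2 g3).mono (fun k hk => hball ?_)
    rw [Metric.mem_ball, Real.dist_eq, abs_lt]
    constructor <;> linarith [hk.1, hk.2]

end Pool.Agent.Q197.OT
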