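import Pool.Agent.Q197.OT.Det

/-!
# The number of the exceptional thresholds
-/

set_option autoImplicit false
set_option linter.unusedSectionVars false

namespace Pool.Agent.Q197.OT

open Finset Filter
open scoped Topology

variable {u v : ℕ → ℕ}

theorem log_le_pow {x : ℝ} (hx : 0 < x) (c : ℝ) : ∀ᶠ n : ℕ in atTop, c * Real.log n ≤ (n : ℝ) ^ x := by
  have h1 : Tendsto (fun n : ℕ => Real.log (n : ℝ) / (n : ℝ) ^ x) atTop (𝓝 0) :=
    ((isLittleO_log_rpow_atTop hx).tendsto_div_nhds_zero).comp tendsto_natCast_atTop_atTop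
  filter_upwards [h1.eventually_lt_const (show 0 < 1 / (|c| + 1) by positivity), eventually_ge_atTop 1] with n h2 h3
  have hn1 : (1 : ℝ) ≤ n := by exact_mod_cast h3
  have hn0 : (0 : ℝ) < n := by linarith
  have hL : 0 ≤ Real.log (n : ℝ) := Real.log_nonneg hn1
  rw [div_lt_div_iff₀ (Real.rpow_pos_of_pos hn0 _) (by positivity), one_mul] at h2
  have h4 : c ≤ |c| + 1 := by linarith [le_abs_self c]
  have h5 : c * Real.log n ≤ (|c| + 1) * Real.log n := mul_le_mul_of_nonneg_right h4 hL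
  linarith

theorem pow_big {x : ℝ} (hx : 0 < x) (c : ℝ) : ∀ᶠ n : ℕ in atTop, c ≤ (n : ℝ) ^ x :=
  ((tendsto_rpow_atTop hx).comp tendsto_natCast_atTop_atTop).eventually_ge_atTop c

theorem ico_card_le {x y : ℝ} : ((Ico ⌊y⌋₊ ⌈x⌉₊).card : ℝ) ≤ max 0 (x - y + 2) := by
  rw [Nat.card_Ico]
  rcases Nat.lt_or_ge ⌊y⌋₊ ⌈x⌉₊ with h | h
  · rw [Nat.cast_sub h.le]
    have hx : 0 < x := by
      by_contra hcon
      rw [Nat.ceil_eq_zero.2 (not_lt.1 hcon)] at h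
      omega
    have h1 := Nat.ceil_lt_add_one hx.le
    have h2 := Nat.lt_floor_add_one y
    refine le_trans ?_ (le_max_right _ _)
    linarith
  · rw [Nat.sub_eq_zero_of_le h, Nat.cast_zero]
    exact le_max_left _ _

open Classical in
/-- **Few large thresholds.** -/
theorem count_up (F : Facts u v) {t δ : ℝ} (ht : 0 < t) (ht1 : t < 1) (hδ : 0 < δ) : ∀ᶠ K : ℕ in atTop,
    (((Icc 1 K).filter (fun k => t < th u v k)).card : ℝ) ≤ (K : ℝ) ^ (3 / 2 - t ^ 2 + δ) := by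
  obtain ⟨δ0, hδ0⟩ : ∃ δ0 : ℝ, δ0 = min δ 1 := ⟨_, rfl⟩
  have hδ00 : 0 < δ0 := by rw [hδ0]; exact lt_min hδ one_pos
  have hδ01 : δ0 ≤ 1 := by rw [hδ0]; exact min_le_right _ _
  have hδ02 : δ0 ≤ δ := by rw [hδ0]; exact min_le_left _ _
  obtain ⟨d, hd⟩ : ∃ d : ℝ, d = δ0 / 8 := ⟨_, rfl⟩
  have hd0 : 0 < d := by rw [hd]; positivity
  have hd1 : d ≤ 1 / 8 := by rw [hd]; linarith
  obtain ⟨C, hC, hcnt⟩ := F.cnt t d ht ht1 hd0
  have ht2 : t ^ 2 < 1 := by nlinarith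
  -- large places
  obtain ⟨n0, hn0⟩ := eventually_atTop.1 ((F.up 2 (by norm_num)).and ((gt_ge 2).and
    ((log_le_pow (show 0 < d / (1 + d) by positivity) 4).and (eventually_ge_atTop 3))))
  obtain ⟨k0, hk0⟩ := eventually_atTop.1 (((nk_top F).eventually_ge_atTop n0).and (eventually_ge_atTop 2))
  filter_upwards [pow_big (show 0 < d by exact hd0) (k0 + 4 * C), eventually_ge_atTop 1] with K hK hK1
  have hKr : (1 : ℝ) ≤ K := by exact_mod_cast hK1
  have hKr0 : (0 : ℝ) < K := by linarith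
  obtain ⟨N, hN⟩ : ∃ N : ℕ, N = ⌊(K : ℝ) ^ (1 + d)⌋₊ := ⟨_, rfl⟩
  have hN1 : 1 ≤ N := by
    rw [hN]
    refine Nat.le_floor ?_
    rw [Nat.cast_one]
    exact Real.one_le_rpow hKr (by linarith)
  have hNr : (1 : ℝ) ≤ N := by exact_mod_cast hN1
  have hNK : (N : ℝ) ≤ (K : ℝ) ^ (1 + d) := by
    rw [hN]
    exact Nat.floor_le (Real.rpow_nonneg hKr0.le _)
  obtain ⟨E, hE⟩ : ∃ E : Finset ℕ, E = (Icc 1 N).filter (fun n => (u n : ℝ) < Gt t n ∨ (v n : ℝ) < Gt t n) := ⟨_, rfl⟩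
  have hsub : (Icc 1 K).filter (fun k => t < th u v k) ⊆ Icc 1 k0 ∪ E.biUnion (fun n => Ico ⌊Gt 2 n⌋₊ ⌈Gt t n⌉₊) := by
    intro k hk
    rw [mem_filter, mem_Icc] at hk
    rw [mem_union, mem_Icc, mem_biUnion]
    rcases Nat.lt_or_ge k0 k with h1 | h1
    · refine Or.inr ?_
      obtain ⟨h2, h3⟩ := hk0 k h1.le
      obtain ⟨⟨g1, g2⟩, g3, g4, g5⟩ := hn0 _ h2
      obtain ⟨n, hn⟩ : ∃ n : ℕ, n = Nk u v k := ⟨_, rfl⟩
      have hb := bad_nk F h3
      rw [← hn] at h2 g1 g2 g3 g4 g5 hb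
      have hn1 : (0 : ℝ) < n := by exact_mod_cast (by omega : 0 < n)
      have h4 : (k : ℝ) < Gt t n := by
        have := (lt_th (u := u) (v := v) (k := k) (by rw [← hn]; omega) t).1 hk.2
        rwa [← hn] at this
      have h5 : Gt 2 n < k := by
        rcases hb with h6 | h6
        · have : (u n : ℝ) < k := by exact_mod_cast h6
          linarith
        · have : (v n : ℝ) < k := by exact_mod_cast h6
          linarith
      have h6 : n ≤ N := by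
        rw [hN]
        refine Nat.le_floor ?_
        have h7 : (n : ℝ) ^ (1 / (1 + d)) ≤ K := by
          have h8 : (n : ℝ) / (4 * Real.log n) ≤ K := by
            have : (k : ℝ) ≤ K := by exact_mod_cast hk.1.2
            linarith
          refine le_trans ?_ h8
          have hln : 0 < Real.log (n : ℝ) := Real.log_pos (by exact_mod_cast (by omega : 1 < n))
          rw [le_div_iff₀ (by linarith)]
          calc (n : ℝ) ^ (1 / (1 + d)) * (4 * Real.log n) ≤ (n : ℝ) ^ (1 / (1 + d)) * (n : ℝ) ^ (d / (1 + d)) :=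
                mul_le_mul_of_nonneg_left g4 (Real.rpow_nonneg hn1.le _)
            _ = (n : ℝ) ^ (1 : ℝ) := by
                rw [← Real.rpow_add hn1]
                congr 1
                field_simp
            _ = n := Real.rpow_one _
        calc (n : ℝ) = ((n : ℝ) ^ (1 / (1 + d))) ^ (1 + d) := by
              rw [← Real.rpow_mul hn1.le, one_div, inv_mul_cancel₀ (by linarith), Real.rpow_one]
          _ ≤ _ := Real.rpow_le_rpow (Real.rpow_nonneg hn1.le _) h7 (by linarith)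
      refine ⟨n, ?_, ?_⟩
      · rw [hE, mem_filter, mem_Icc]
        refine ⟨⟨by omega, h6⟩, ?_⟩
        rcases hb with h7 | h7
        · have : (u n : ℝ) < k := by exact_mod_cast h7
          exact Or.inl (by linarith)
        · have : (v n : ℝ) < k := by exact_mod_cast h7
          exact Or.inr (by linarith)
      · rw [mem_Ico]
        exact ⟨Nat.floor_le_of_le h5.le, Nat.lt_ceil.2 h4⟩
    · exact Or.inl ⟨hk.1.1, h1⟩
  have h1 := (card_le_card hsub).trans ((card_union_le _ _).trans (Nat.add_le_add_left card_biUnion_le _))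
  rw [Nat.card_Icc] at h1
  have h2 : (((Icc 1 K).filter (fun k => t < th u v k)).card : ℝ) ≤ k0 + ∑ n ∈ E, ((Ico ⌊Gt 2 n⌋₊ ⌈Gt t n⌉₊).card : ℝ) := by
    have h3 : ((Icc 1 K).filter (fun k => t < th u v k)).card ≤ k0 + ∑ n ∈ E, (Ico ⌊Gt 2 n⌋₊ ⌈Gt t n⌉₊).card := by omega
    exact_mod_cast h3
  have hNhalf : 0 < (N : ℝ) ^ (1 / 2 : ℝ) := Real.rpow_pos_of_pos (by linarith) _
  have h3 : ∀ n ∈ E, ((Ico ⌊Gt 2 n⌋₊ ⌈Gt t n⌉₊).card : ℝ) ≤ 4 * (N : ℝ) ^ (1 / 2 : ℝ) := by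
    intro n hn
    rw [hE, mem_filter, mem_Icc] at hn
    refine ico_card_le.trans (max_le (by positivity) ?_)
    have hn1 : (1 : ℝ) ≤ n := by exact_mod_cast hn.1.1
    have h4 : Gt t n - Gt 2 n = (2 - t) * √(n : ℝ) := by
      unfold Gt
      ring
    have h5 : 1 ≤ √(n : ℝ) := by
      rw [Real.one_le_sqrt]
      exact hn1
    have h6 : √(n : ℝ) ≤ (N : ℝ) ^ (1 / 2 : ℝ) := by
      rw [← Real.sqrt_eq_rpow]
      exact Real.sqrt_le_sqrt (by exact_mod_cast hn.1.2)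
    rw [h4]
    have h7 : (2 - t) * √(n : ℝ) ≤ 2 * √(n : ℝ) := mul_le_mul_of_nonneg_right (by linarith) (by linarith)
    linarith
  have h4 := sum_le_card_nsmul E _ _ h3
  rw [nsmul_eq_mul] at h4
  have h5 : (E.card : ℝ) ≤ C * (N : ℝ) ^ (1 - t ^ 2 + d) := by
    rw [hE]
    convert hcnt N using 4
  have h6 : (E.card : ℝ) * (4 * (N : ℝ) ^ (1 / 2 : ℝ)) ≤ 4 * C * (K : ℝ) ^ (3 / 2 - t ^ 2 + 3 * d) := by
    calc (E.card : ℝ) * (4 * (N : ℝ) ^ (1 / 2 : ℝ)) ≤ (C * (N : ℝ) ^ (1 - t ^ 2 + d)) * (4 * (N : ℝ) ^ (1 / 2 : ℝ)) :=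
          mul_le_mul_of_nonneg_right h5 (by positivity)
      _ = 4 * C * (N : ℝ) ^ (3 / 2 - t ^ 2 + d) := by
          have : (N : ℝ) ^ (1 - t ^ 2 + d) * (N : ℝ) ^ (1 / 2 : ℝ) = (N : ℝ) ^ (3 / 2 - t ^ 2 + d) := by
            rw [← Real.rpow_add (by linarith)]
            congr 1
            ring
          rw [← this]
          ring
      _ ≤ 4 * C * ((K : ℝ) ^ (1 + d)) ^ (3 / 2 - t ^ 2 + d) :=
          mul_le_mul_of_nonneg_left (Real.rpow_le_rpow (by linarith) hNK (by linarith)) (by positivity)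
      _ ≤ _ := by
          rw [← Real.rpow_mul hKr0.le]
          refine mul_le_mul_of_nonneg_left (Real.rpow_le_rpow_of_exponent_le hKr ?_) (by positivity)
          nlinarith [sq_nonneg t]
  have hpos : 1 ≤ (K : ℝ) ^ (3 / 2 - t ^ 2 + 3 * d) := Real.one_le_rpow hKr (by linarith)
  have hk0r : (0 : ℝ) ≤ k0 := Nat.cast_nonneg _
  calc (((Icc 1 K).filter (fun k => t < th u v k)).card : ℝ) ≤ k0 + 4 * C * (K : ℝ) ^ (3 / 2 - t ^ 2 + 3 * d) := by linarith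
    _ ≤ (k0 + 4 * C) * (K : ℝ) ^ (3 / 2 - t ^ 2 + 3 * d) := by nlinarith
    _ ≤ (K : ℝ) ^ d * (K : ℝ) ^ (3 / 2 - t ^ 2 + 3 * d) := mul_le_mul_of_nonneg_right hK (by linarith)
    _ = (K : ℝ) ^ (3 / 2 - t ^ 2 + 4 * d) := by
        rw [← Real.rpow_add hKr0]
        congr 1
        ring
    _ ≤ _ := Real.rpow_le_rpow_of_exponent_le hKr (by linarith)

theorem ico_card_ge {x y : ℝ} (hy : 0 ≤ y) : x - y - 1 ≤ ((Ico (⌊y⌋₊ + 1) ⌈x⌉₊).card : ℝ) := by
  rw [Nat.card_Ico]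
  have h1 := Nat.le_ceil x
  have h2 := Nat.floor_le hy
  rcases Nat.lt_or_ge (⌊y⌋₊ + 1) ⌈x⌉₊ with h | h
  · rw [Nat.cast_sub h.le]
    push_cast
    linarith
  · have h3 : (⌈x⌉₊ : ℝ) ≤ ⌊y⌋₊ + 1 := by exact_mod_cast h
    have h4 : (0 : ℝ) ≤ ((⌈x⌉₊ - (⌊y⌋₊ + 1) : ℕ) : ℝ) := Nat.cast_nonneg _
    linarith

open Classical in
/-- **Many large thresholds.** -/
theorem count_low (F : Facts u v) {t δ : ℝ} (ht : 0 < t) (ht1 : t < 1) (ht2 : 1 / 2 ≤ t ^ 2) (hδ : 0 < δ) : ∀ᶠ K : ℕ in atTop,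
    (K : ℝ) ^ (3 / 2 - t ^ 2 - δ) ≤ (((Icc 1 K).filter (fun k => t < th u v k)).card : ℝ) := by
  have ht3 : t ^ 2 < 1 := by nlinarith
  obtain ⟨δ0, hδ0⟩ : ∃ δ0 : ℝ, δ0 = min δ (1 - t ^ 2) := ⟨_, rfl⟩
  have hδ00 : 0 < δ0 := by rw [hδ0]; exact lt_min hδ (by linarith)
  have hδ01 : δ0 ≤ 1 - t ^ 2 := by rw [hδ0]; exact min_le_right _ _
  have hδ02 : δ0 ≤ δ := by rw [hδ0]; exact min_le_left _ _
  obtain ⟨s, hs⟩ : ∃ s : ℝ, s = t + δ0 / 32 := ⟨_, rfl⟩
  have hts : t < s := by rw [hs]; linarith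
  have hs0 : 0 < s := ht.trans hts
  have hs2 : s ^ 2 < t ^ 2 + δ0 / 8 := by
    rw [hs]
    nlinarith
  have hs1 : s < 1 := by nlinarith
  obtain ⟨β, hβ⟩ : ∃ β : ℝ, β = t ^ 2 + δ0 / 4 := ⟨_, rfl⟩
  have hβ1 : β < 1 := by rw [hβ]; linarith
  have hβ2 : 1 / 2 < β := by rw [hβ]; linarith
  have hw := F.win s (β - s ^ 2) hs0 hs1 (by rw [hβ]; linarith) (by linarith)
  have e1 : s ^ 2 + (β - s ^ 2) = β := by ring
  rw [e1] at hw
  obtain ⟨m1, hm1⟩ := eventually_atTop.1 (gt_mono t)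
  obtain ⟨m2, hm2⟩ := eventually_atTop.1 hw
  obtain ⟨m3, hm3⟩ := eventually_atTop.1 ((log_top.eventually_ge_atTop 2).and ((gt_ge s).and (div_log_top.eventually_ge_atTop 1)))
  have hdbl : Tendsto (fun K : ℕ => 2 * K) atTop atTop := tendsto_id.const_mul_atTop' (by norm_num)
  filter_upwards [eventually_ge_atTop (m1 + m2 + m3 + 3), (hdbl.eventually (log_le_pow (show 0 < β - 1 / 2 by linarith) 4)),
    pow_big (show 0 < 1 - β by linarith) 16, pow_big (show (0 : ℝ) < 1 / 2 by norm_num) (2 / (s - t)),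
    pow_big (show 0 < δ0 / 2 by linarith) (32 / (s - t))] with K hK hlog h16 hsq hfin
  have hKr : (1 : ℝ) ≤ K := by exact_mod_cast (by omega : 1 ≤ K)
  have hKr0 : (0 : ℝ) < K := by linarith
  have h2K0 : (0 : ℝ) < 2 * K := by linarith
  push_cast at hlog
  obtain ⟨X, hX⟩ : ∃ X : ℝ, X = (2 * (K : ℝ)) ^ β := ⟨_, rfl⟩
  have hX1 : 1 ≤ X := by
    rw [hX]
    exact Real.one_le_rpow (by linarith) (by linarith)
  obtain ⟨B, hB⟩ : ∃ B : ℕ, B = ⌈X⌉₊ := ⟨_, rfl⟩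
  have hXB : X ≤ B := by rw [hB]; exact Nat.le_ceil _
  have hBX : (B : ℝ) ≤ 2 * X := by
    have := Nat.ceil_lt_add_one (show 0 ≤ X by linarith)
    rw [hB]
    linarith
  have hB1 : 1 ≤ B := by
    have : (1 : ℝ) ≤ B := hX1.trans hXB
    exact_mod_cast this
  have hXK : X ≤ 2 * (K : ℝ) ^ β := by
    rw [hX, Real.mul_rpow (by norm_num) hKr0.le]
    refine mul_le_mul_of_nonneg_right ?_ (Real.rpow_nonneg hKr0.le _)
    calc (2 : ℝ) ^ β ≤ 2 ^ (1 : ℝ) := Real.rpow_le_rpow_of_exponent_le (by norm_num) hβ1.le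
      _ = 2 := Real.rpow_one _
  obtain ⟨J, hJ⟩ : ∃ J : ℕ, J = K / (2 * B) := ⟨_, rfl⟩
  have hJK : J * (2 * B) ≤ K := by rw [hJ]; exact Nat.div_mul_le_self _ _
  have hJlow : (K : ℝ) ^ (1 - β) / 16 ≤ J := by
    have h3 : K < (J + 1) * (2 * B) := by rw [hJ]; exact Nat.lt_mul_of_div_lt (by omega) (by omega)
    have h4 : (K : ℝ) < (J + 1) * (2 * B) := by exact_mod_cast h3
    have h5 : (K : ℝ) < (J + 1) * (8 * (K : ℝ) ^ β) := by
      refine h4.trans_le (mul_le_mul_of_nonneg_left ?_ (by positivity))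
      linarith
    have h6 : (K : ℝ) = (K : ℝ) ^ (1 - β) * (K : ℝ) ^ β := by
      rw [← Real.rpow_add hKr0]
      have : 1 - β + β = 1 := by ring
      rw [this, Real.rpow_one]
    have h7 : 0 < (K : ℝ) ^ β := Real.rpow_pos_of_pos hKr0 _
    have h8 : (K : ℝ) ^ (1 - β) * (K : ℝ) ^ β < ((J + 1) * 8) * (K : ℝ) ^ β := by
      rw [← h6]
      linarith
    have h9 := lt_of_mul_lt_mul_right h8 h7.le
    linarith
  -- the places
  have hplace : ∀ j : ℕ, ∃ n : ℕ, j < J → K + 2 * j * B < n ∧ n ≤ K + 2 * j * B + B ∧ (v n : ℝ) ≤ Gt s n := by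
    intro j
    by_cases hj : j < J
    · have hjB : 2 * j * B + 2 * B ≤ K := by
        calc 2 * j * B + 2 * B = (j + 1) * (2 * B) := by ring
          _ ≤ J * (2 * B) := Nat.mul_le_mul_right _ hj
          _ ≤ K := hJK
      obtain ⟨n, g1, g2, g3⟩ := hm2 (K + 2 * j * B) (by omega)
      refine ⟨n, fun _ => ⟨g1, ?_, g3⟩⟩
      have g4 : ((K + 2 * j * B : ℕ) : ℝ) ^ β ≤ X := by
        rw [hX]
        refine Real.rpow_le_rpow (Nat.cast_nonneg _) ?_ (by linarith)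
        have : K + 2 * j * B ≤ 2 * K := by omega
        exact_mod_cast this
      have g5 : (n : ℝ) ≤ ((K + 2 * j * B + B : ℕ) : ℝ) := by
        push_cast at g2 g4 ⊢
        linarith
      exact_mod_cast g5
    · exact ⟨0, fun h => absurd h hj⟩
  choose pl hpl using hplace
  have hpl2 : ∀ j < J, K < pl j ∧ pl j ≤ 2 * K := by
    intro j hj
    obtain ⟨g1, g2, _⟩ := hpl j hj
    have hjB : 2 * j * B + 2 * B ≤ K := by
      calc 2 * j * B + 2 * B = (j + 1) * (2 * B) := by ring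
        _ ≤ J * (2 * B) := Nat.mul_le_mul_right _ hj
        _ ≤ K := hJK
    omega
  obtain ⟨W, hW⟩ : ∃ W : ℕ → Finset ℕ, W = fun j => Ico (⌊Gt s (pl j)⌋₊ + 1) ⌈Gt t (pl j)⌉₊ := ⟨_, rfl⟩
  have hWk : ∀ j < J, ∀ k ∈ W j, Gt s (pl j) < k ∧ (k : ℝ) < Gt t (pl j) := by
    intro j hj k hk
    rw [hW] at hk
    simp only [mem_Ico] at hk
    refine ⟨?_, Nat.lt_ceil.1 hk.2⟩
    have := Nat.lt_of_floor_lt (show ⌊Gt s (pl j)⌋₊ < k by omega)
    exact this
  have hfn : ∀ j < J, fn (pl j) ≤ K := by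
    intro j hj
    obtain ⟨g1, g2⟩ := hpl2 j hj
    obtain ⟨g3, _⟩ := hm3 (pl j) (by omega)
    unfold fn
    rw [div_le_iff₀ (by linarith)]
    have g4 : (pl j : ℝ) ≤ 2 * K := by exact_mod_cast g2
    nlinarith
  have hdis : ∀ i ∈ range J, ∀ j ∈ range J, i ≠ j → Disjoint (W i) (W j) := by
    have key : ∀ i < J, ∀ j < J, i < j → Disjoint (W i) (W j) := by
      intro i hi j hj hij
      rw [Finset.disjoint_left]
      intro k hk hk2
      obtain ⟨_, g1⟩ := hWk i hi k hk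
      obtain ⟨g2, _⟩ := hWk j hj k hk2
      obtain ⟨p1, p2⟩ := hpl2 i hi
      obtain ⟨p3, p4⟩ := hpl2 j hj
      obtain ⟨q1, q2, _⟩ := hpl i hi
      obtain ⟨q3, q4, _⟩ := hpl j hj
      obtain ⟨r1, _⟩ := hm3 (pl i) (by omega)
      have g3 : pl i + B ≤ pl j := by
        have : 2 * i * B + 2 * B ≤ 2 * j * B := by
          calc 2 * i * B + 2 * B = (i + 1) * (2 * B) := by ring
            _ ≤ j * (2 * B) := Nat.mul_le_mul_right _ hij
            _ = 2 * j * B := by ring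
        omega
      have g4 := fn_diff_ge (m := pl i) (n := pl j) (by omega) r1 (by omega)
      have hjr : (0 : ℝ) < pl j := by exact_mod_cast (by omega : 0 < pl j)
      have hir : (0 : ℝ) < pl i := by exact_mod_cast (by omega : 0 < pl i)
      have g5 : (pl j : ℝ) ≤ 2 * K := by exact_mod_cast p4
      have g6 : Real.log (pl j : ℝ) ≤ Real.log (2 * K) := Real.log_le_log hjr g5
      have g7 : (B : ℝ) ≤ (pl j : ℝ) - pl i := by
        have : ((pl i + B : ℕ) : ℝ) ≤ pl j := by exact_mod_cast g3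
        push_cast at this
        linarith
      have g8 : √(pl j : ℝ) ≤ (2 * (K : ℝ)) ^ (1 / 2 : ℝ) := by
        rw [← Real.sqrt_eq_rpow]
        exact Real.sqrt_le_sqrt g5
      have hlj : 2 ≤ Real.log (pl j : ℝ) := (hm3 (pl j) (by omega)).1
      have g9 : √(pl j : ℝ) * (4 * Real.log (pl j)) ≤ B := by
        calc √(pl j : ℝ) * (4 * Real.log (pl j)) ≤ (2 * (K : ℝ)) ^ (1 / 2 : ℝ) * (2 * (K : ℝ)) ^ (β - 1 / 2) :=
              mul_le_mul g8 (by linarith) (by linarith) (Real.rpow_nonneg h2K0.le _)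
          _ = X := by
              rw [hX, ← Real.rpow_add h2K0]
              congr 1
              ring
          _ ≤ B := hXB
      have g10 : √(pl j : ℝ) ≤ fn (pl j) - fn (pl i) := by
        refine le_trans ?_ g4
        rw [le_div_iff₀ (by linarith)]
        linarith
      have g11 : s * √(pl j : ℝ) ≤ √(pl j : ℝ) := by
        have := Real.sqrt_nonneg (pl j : ℝ)
        nlinarith
      have g12 : 0 ≤ t * √(pl i : ℝ) := mul_nonneg ht.le (Real.sqrt_nonneg _)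
      unfold Gt at g1 g2
      linarith
    intro i hi j hj hij
    rw [mem_range] at hi hj
    rcases Nat.lt_or_gt_of_ne hij with h | h
    · exact key i hi j hj h
    · exact (key j hj i hi h).symm
  have hsub : (range J).biUnion W ⊆ (Icc 1 K).filter (fun k => t < th u v k) := by
    intro k hk
    rw [mem_biUnion] at hk
    obtain ⟨j, hj, hk⟩ := hk
    rw [mem_range] at hj
    obtain ⟨g1, g2⟩ := hWk j hj k hk
    obtain ⟨p1, p2⟩ := hpl2 j hj
    obtain ⟨_, _, q3⟩ := hpl j hj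
    obtain ⟨r1, r2, r3⟩ := hm3 (pl j) (by omega)
    rw [mem_filter, mem_Icc]
    have hb : Bad u v k (pl j) := by
      refine Or.inr ?_
      have : (v (pl j) : ℝ) < k := by linarith
      exact_mod_cast this
    have hNn := le_nk F hb
    have hk1 : (0 : ℝ) < k := by linarith
    have hkK : (k : ℝ) < K := by
      have g3 := hfn j hj
      have g4 : 0 ≤ t * √(pl j : ℝ) := mul_nonneg ht.le (Real.sqrt_nonneg _)
      unfold Gt at g2
      linarith
    refine ⟨⟨by exact_mod_cast hk1, by exact_mod_cast hkK.le⟩, ?_⟩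
    rw [lt_th (by omega)]
    exact lt_of_lt_of_le g2 (hm1 (pl j) (by omega) _ hNn)
  have h1 := card_le_card hsub
  rw [card_biUnion (fun i hi j hj hij => hdis i hi j hj hij)] at h1
  have h2 : (∑ j ∈ range J, ((W j).card : ℝ)) ≤ (((Icc 1 K).filter (fun k => t < th u v k)).card : ℝ) := by exact_mod_cast h1
  have h3 : ∀ j ∈ range J, (s - t) / 2 * (K : ℝ) ^ (1 / 2 : ℝ) ≤ ((W j).card : ℝ) := by
    intro j hj
    rw [mem_range] at hj
    obtain ⟨p1, p2⟩ := hpl2 j hj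
    obtain ⟨r1, r2, r3⟩ := hm3 (pl j) (by omega)
    rw [hW]
    have h4 := ico_card_ge (x := Gt t (pl j)) (y := Gt s (pl j)) (by linarith)
    refine le_trans ?_ h4
    have h5 : Gt t (pl j) - Gt s (pl j) = (s - t) * √(pl j : ℝ) := by
      unfold Gt
      ring
    rw [h5]
    have h6 : (K : ℝ) ^ (1 / 2 : ℝ) ≤ √(pl j : ℝ) := by
      rw [← Real.sqrt_eq_rpow]
      exact Real.sqrt_le_sqrt (by exact_mod_cast p1.le)
    have hst : 0 < s - t := by linarith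
    have h7 : 1 ≤ (s - t) / 2 * (K : ℝ) ^ (1 / 2 : ℝ) := by
      rw [div_le_iff₀ hst] at hsq
      linarith
    have h8 : (s - t) * (K : ℝ) ^ (1 / 2 : ℝ) ≤ (s - t) * √(pl j : ℝ) := mul_le_mul_of_nonneg_left h6 hst.le
    linarith
  have h4 := card_nsmul_le_sum (range J) _ _ h3
  rw [card_range, nsmul_eq_mul] at h4
  refine le_trans ?_ (h4.trans h2)
  have hst : 0 < s - t := by linarith
  have h5 : (K : ℝ) ^ (3 / 2 - t ^ 2 - δ) ≤ (K : ℝ) ^ (3 / 2 - β - δ0 / 2) :=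
    Real.rpow_le_rpow_of_exponent_le hKr (by rw [hβ]; linarith)
  refine h5.trans ?_
  have h6 : (K : ℝ) ^ (3 / 2 - β) = (K : ℝ) ^ (1 - β) * (K : ℝ) ^ (1 / 2 : ℝ) := by
    rw [← Real.rpow_add hKr0]
    congr 1
    ring
  have h7 : (K : ℝ) ^ (3 / 2 - β) = (K : ℝ) ^ (3 / 2 - β - δ0 / 2) * (K : ℝ) ^ (δ0 / 2) := by
    rw [← Real.rpow_add hKr0]
    congr 1
    ring
  have h8 : 0 < (K : ℝ) ^ (3 / 2 - β - δ0 / 2) := Real.rpow_pos_of_pos hKr0 _
  have h9 : 0 < (K : ℝ) ^ (1 / 2 : ℝ) := Real.rpow_pos_of_pos hKr0 _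
  have h10 : (K : ℝ) ^ (1 - β) / 16 * ((s - t) / 2 * (K : ℝ) ^ (1 / 2 : ℝ)) ≤ (J : ℝ) * ((s - t) / 2 * (K : ℝ) ^ (1 / 2 : ℝ)) :=
    mul_le_mul_of_nonneg_right hJlow (by positivity)
  refine le_trans ?_ h10
  have h11 : (K : ℝ) ^ (1 - β) / 16 * ((s - t) / 2 * (K : ℝ) ^ (1 / 2 : ℝ)) =
      (s - t) / 32 * ((K : ℝ) ^ (3 / 2 - β - δ0 / 2) * (K : ℝ) ^ (δ0 / 2)) := by
    rw [← h7, h6]
    ring
  rw [h11]
  rw [div_le_iff₀ hst] at hfin
  have h12 : 1 ≤ (s - t) / 32 * (K : ℝ) ^ (δ0 / 2) := by linarith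
  calc (K : ℝ) ^ (3 / 2 - β - δ0 / 2) = (K : ℝ) ^ (3 / 2 - β - δ0 / 2) * 1 := (mul_one _).symm
    _ ≤ (K : ℝ) ^ (3 / 2 - β - δ0 / 2) * ((s - t) / 32 * (K : ℝ) ^ (δ0 / 2)) := mul_le_mul_of_nonneg_left h12 h8.le
    _ = _ := by ring

end Pool.Agent.Q197.OT
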