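import Pool.Agent.Q197.OT.Facts

/-!
# The thresholds
-/

set_option autoImplicit false
set_option linter.unusedSectionVars false

namespace Pool.Agent.Q197.OT

open Finset Filter
open scoped Topology

theorem log_top : Tendsto (fun n : ℕ => Real.log (n : ℝ)) atTop atTop :=
  Real.tendsto_log_atTop.comp tendsto_natCast_atTop_atTop

theorem fn_diff_le {m n : ℕ} (hm : 3 ≤ m) (hmn : m ≤ n) : fn n - fn m ≤ ((n : ℝ) - m) / (2 * Real.log m) := by
  have hm0 : (3 : ℝ) ≤ m := by exact_mod_cast hm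
  have hn0 : (m : ℝ) ≤ n := by exact_mod_cast hmn
  have hlm : 0 < Real.log (m : ℝ) := Real.log_pos (by linarith)
  have hln : Real.log (m : ℝ) ≤ Real.log n := Real.log_le_log (by linarith) hn0
  unfold fn
  have h1 : (n : ℝ) / (2 * Real.log n) ≤ n / (2 * Real.log m) :=
    div_le_div_of_nonneg_left (by linarith) (by linarith) (by linarith)
  have h2 : ((n : ℝ) - m) / (2 * Real.log m) = n / (2 * Real.log m) - m / (2 * Real.log m) := by rw [sub_div]
  linarith

theorem fn_diff_ge {m n : ℕ} (hm : 3 ≤ m) (hlm : 2 ≤ Real.log (m : ℝ)) (hmn : m ≤ n) :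
    ((n : ℝ) - m) / (4 * Real.log n) ≤ fn n - fn m := by
  have hm0 : (3 : ℝ) ≤ m := by exact_mod_cast hm
  have hn0 : (m : ℝ) ≤ n := by exact_mod_cast hmn
  have hln : Real.log (m : ℝ) ≤ Real.log n := Real.log_le_log (by linarith) hn0
  have hnm : Real.log (n : ℝ) - Real.log m ≤ (n - m) / m := by
    have h1 := Real.log_le_sub_one_of_pos (show (0 : ℝ) < n / m by
      have : (0 : ℝ) < n := by linarith
      have : (0 : ℝ) < m := by linarith
      positivity)
    rw [Real.log_div (by linarith) (by linarith)] at h1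
    have h2 : (n : ℝ) / m - 1 = (n - m) / m := by field_simp
    linarith
  have hm1 : (m : ℝ) * (Real.log n - Real.log m) ≤ n - m := by
    rw [le_div_iff₀ (by linarith)] at hnm
    linarith
  unfold fn
  rw [div_sub_div _ _ (by linarith) (by linarith), div_le_div_iff₀ (by linarith) (by nlinarith)]
  have h3 : (n : ℝ) * (2 * Real.log m) - 2 * Real.log n * m = 2 * ((n - m) * Real.log m - m * (Real.log n - Real.log m)) := by
    ring
  rw [h3]
  have h4 : ((n : ℝ) - m) * (Real.log m - 1) ≤ (n - m) * Real.log m - m * (Real.log n - Real.log m) := by linarith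
  have h5 : ((n : ℝ) - m) * (Real.log m / 2) ≤ (n - m) * (Real.log m - 1) := mul_le_mul_of_nonneg_left (by linarith) (by linarith)
  have h6 : 0 < Real.log (n : ℝ) := by linarith
  calc ((n : ℝ) - m) * (2 * Real.log n * (2 * Real.log m)) = 2 * ((n - m) * (Real.log m / 2)) * (4 * Real.log n) := by ring
    _ ≤ 2 * ((n - m) * Real.log m - m * (Real.log n - Real.log m)) * (4 * Real.log n) :=
      mul_le_mul_of_nonneg_right (by linarith) (by linarith)

theorem sqrt_big (c : ℝ) : ∀ᶠ n : ℕ in atTop, c * Real.log n ≤ √(n : ℝ) := by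
  have h1 : Tendsto (fun n : ℕ => Real.log (n : ℝ) / (n : ℝ) ^ (1 / 2 : ℝ)) atTop (𝓝 0) :=
    ((isLittleO_log_rpow_atTop (by norm_num)).tendsto_div_nhds_zero).comp tendsto_natCast_atTop_atTop
  filter_upwards [h1.eventually_lt_const (show 0 < 1 / (|c| + 1) by positivity), eventually_ge_atTop 1] with n h2 h3
  have hn1 : (1 : ℝ) ≤ n := by exact_mod_cast h3
  have hn0 : (0 : ℝ) < n := by linarith
  have hL : 0 ≤ Real.log (n : ℝ) := Real.log_nonneg hn1
  rw [div_lt_div_iff₀ (Real.rpow_pos_of_pos hn0 _) (by positivity), one_mul] at h2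
  rw [Real.sqrt_eq_rpow]
  have h4 : c ≤ |c| + 1 := by linarith [le_abs_self c]
  have h5 : c * Real.log n ≤ (|c| + 1) * Real.log n := mul_le_mul_of_nonneg_right h4 hL
  linarith

theorem gt_mono (t : ℝ) : ∀ᶠ m : ℕ in atTop, ∀ n, m ≤ n → Gt t m ≤ Gt t n := by
  obtain ⟨n0, hn0⟩ := eventually_atTop.1 (sqrt_big (4 * |t|))
  filter_upwards [eventually_ge_atTop n0, eventually_ge_atTop 3, log_top.eventually_ge_atTop 2] with m h1 h2 h3 n hmn
  have h4 := hn0 n (h1.trans hmn)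
  have h5 := fn_diff_ge h2 h3 hmn
  have hm0 : (3 : ℝ) ≤ m := by exact_mod_cast h2
  have hn0 : (m : ℝ) ≤ n := by exact_mod_cast hmn
  have hln : Real.log (m : ℝ) ≤ Real.log n := Real.log_le_log (by linarith) hn0
  have hs : 0 < √(n : ℝ) := Real.sqrt_pos.2 (by linarith)
  have hsm : √(m : ℝ) ≤ √(n : ℝ) := Real.sqrt_le_sqrt hn0
  have hsm0 := Real.sqrt_nonneg (m : ℝ)
  have h6 : t * (√(n : ℝ) - √(m : ℝ)) ≤ ((n : ℝ) - m) / (4 * Real.log n) := by
    rw [le_div_iff₀ (by linarith)]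
    have h7 : (√(n : ℝ) - √(m : ℝ)) * √(n : ℝ) ≤ (n : ℝ) - m := by
      have e1 := Real.mul_self_sqrt (show (0 : ℝ) ≤ n by linarith)
      have e2 := Real.mul_self_sqrt (show (0 : ℝ) ≤ m by linarith)
      nlinarith
    have h8 : t ≤ |t| := le_abs_self t
    calc t * (√(n : ℝ) - √(m : ℝ)) * (4 * Real.log n) ≤ |t| * (√(n : ℝ) - √(m : ℝ)) * (4 * Real.log n) :=
          mul_le_mul_of_nonneg_right (mul_le_mul_of_nonneg_right h8 (by linarith)) (by linarith)
      _ = (√(n : ℝ) - √(m : ℝ)) * (4 * |t| * Real.log n) := by ring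
      _ ≤ (√(n : ℝ) - √(m : ℝ)) * √(n : ℝ) := mul_le_mul_of_nonneg_left h4 (by linarith)
      _ ≤ _ := h7
  unfold Gt
  linarith

theorem gt_ge (t : ℝ) : ∀ᶠ n : ℕ in atTop, (n : ℝ) / (4 * Real.log n) ≤ Gt t n := by
  filter_upwards [sqrt_big (4 * |t|), eventually_ge_atTop 3] with n h1 h2
  have hn0 : (3 : ℝ) ≤ n := by exact_mod_cast h2
  have hln : 0 < Real.log (n : ℝ) := Real.log_pos (by linarith)
  have hs : 0 < √(n : ℝ) := Real.sqrt_pos.2 (by linarith)
  have e1 := Real.mul_self_sqrt (show (0 : ℝ) ≤ n by linarith)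
  have h3 : t * √(n : ℝ) ≤ n / (4 * Real.log n) := by
    rw [le_div_iff₀ (by linarith)]
    calc t * √(n : ℝ) * (4 * Real.log n) ≤ |t| * √(n : ℝ) * (4 * Real.log n) :=
          mul_le_mul_of_nonneg_right (mul_le_mul_of_nonneg_right (le_abs_self t) hs.le) (by linarith)
      _ = (4 * |t| * Real.log n) * √(n : ℝ) := by ring
      _ ≤ √(n : ℝ) * √(n : ℝ) := mul_le_mul_of_nonneg_right h1 hs.le
      _ = n := e1
  unfold Gt fn
  have h4 : (n : ℝ) / (2 * Real.log n) = n / (4 * Real.log n) + n / (4 * Real.log n) := by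
    field_simp
    ring
  linarith

theorem div_log_top : Tendsto (fun n : ℕ => (n : ℝ) / (4 * Real.log n)) atTop atTop := by
  have h1 : ∀ᶠ n : ℕ in atTop, √(n : ℝ) ≤ (n : ℝ) / (4 * Real.log n) := by
    filter_upwards [sqrt_big 4, eventually_ge_atTop 3] with n h1 h2
    have hn0 : (3 : ℝ) ≤ n := by exact_mod_cast h2
    have hln : 0 < Real.log (n : ℝ) := Real.log_pos (by linarith)
    have hs : 0 < √(n : ℝ) := Real.sqrt_pos.2 (by linarith)
    have e1 := Real.mul_self_sqrt (show (0 : ℝ) ≤ n by linarith)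
    rw [le_div_iff₀ (by linarith)]
    nlinarith
  exact tendsto_atTop_mono' atTop h1 (Real.tendsto_sqrt_atTop.comp tendsto_natCast_atTop_atTop)

theorem gt_top (t : ℝ) : Tendsto (Gt t) atTop atTop := tendsto_atTop_mono' atTop (gt_ge t) div_log_top

variable {u v : ℕ → ℕ}

/-- one of the two counts is less than `k` -/
def Bad (u v : ℕ → ℕ) (k n : ℕ) : Prop := u n < k ∨ v n < k

/-- the threshold -/
noncomputable def Nk (u v : ℕ → ℕ) (k : ℕ) : ℕ := sSup {n | Bad u v k n}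

/-- the normalized threshold -/
noncomputable def th (u v : ℕ → ℕ) (k : ℕ) : ℝ := (fn (Nk u v k) - k) / √(Nk u v k : ℝ)

theorem bad_finite (F : Facts u v) (k : ℕ) : {n | Bad u v k n}.Finite := by
  obtain ⟨n0, hn0⟩ := eventually_atTop.1 ((F.up 2 (by norm_num)).and ((gt_top 2).eventually_ge_atTop (k : ℝ)))
  refine (Set.finite_lt_nat n0).subset (fun n hn => ?_)
  show n < n0
  by_contra hcon
  obtain ⟨⟨h1, h2⟩, h3⟩ := hn0 n (by omega)
  rcases hn with h4 | h4
  · have : (u n : ℝ) < k := by exact_mod_cast h4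
    linarith
  · have : (v n : ℝ) < k := by exact_mod_cast h4
    linarith

theorem le_nk (F : Facts u v) {k n : ℕ} (h : Bad u v k n) : n ≤ Nk u v k :=
  le_csSup (bad_finite F k).bddAbove h

theorem bad_nk (F : Facts u v) {k : ℕ} (hk : 2 ≤ k) : Bad u v k (Nk u v k) := by
  refine Nat.sSup_mem ?_ (bad_finite F k).bddAbove
  refine ⟨0, Or.inl ?_⟩
  have := (F.triv 0).1
  omega

theorem nk_ge (F : Facts u v) {k n : ℕ} (hk : n + 2 ≤ k) : n ≤ Nk u v k := by
  refine le_nk F (Or.inl ?_)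
  have := (F.triv n).1
  omega

theorem nk_top (F : Facts u v) : Tendsto (Nk u v) atTop atTop := by
  rw [tendsto_atTop]
  intro n
  filter_upwards [eventually_ge_atTop (n + 2)] with k hk
  exact nk_ge F hk

theorem lt_th {k : ℕ} (hN : 0 < Nk u v k) (t : ℝ) : t < th u v k ↔ (k : ℝ) < Gt t (Nk u v k) := by
  have h0 : (0 : ℝ) < Nk u v k := by exact_mod_cast hN
  unfold th Gt
  rw [lt_div_iff₀ (Real.sqrt_pos.2 h0)]
  constructor <;> intro h <;> linarith

/-- **The upper bound.** -/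
theorem th_lt (F : Facts u v) {t : ℝ} (ht : 1 < t) : ∀ᶠ k : ℕ in atTop, th u v k < t := by
  have h1 := (nk_top F).eventually (F.up ((1 + t) / 2) (by linarith))
  filter_upwards [h1, (nk_top F).eventually_ge_atTop 1, eventually_ge_atTop 2] with k h2 h3 h4
  have h5 := bad_nk F h4
  have h6 : ¬ (1 + t) / 2 < th u v k := by
    rw [lt_th h3]
    rcases h5 with h6 | h6
    · have : (u (Nk u v k) : ℝ) < k := by exact_mod_cast h6
      linarith [h2.1]
    · have : (v (Nk u v k) : ℝ) < k := by exact_mod_cast h6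
      linarith [h2.2]
  linarith

/-- **The lower bound.** -/
theorem lt_th_ev (F : Facts u v) {t : ℝ} (ht : t < 1 / √2) : ∀ᶠ k : ℕ in atTop, t < th u v k := by
  have h2 : (0 : ℝ) < 1 / √2 := by positivity
  obtain ⟨t', h3, h4⟩ : ∃ t' : ℝ, max t 0 < t' ∧ t' < 1 / √2 := exists_between (max_lt ht h2)
  have ht' : t < t' := lt_of_le_of_lt (le_max_left _ _) h3
  have ht0 : 0 < t' := lt_of_le_of_lt (le_max_right _ _) h3
  obtain ⟨s, h5, h6⟩ := exists_between h4
  have hs0 : 0 < s := ht0.trans h5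
  have hs2 : s ^ 2 < 1 / 2 := by
    have h7 : s ^ 2 < (1 / √2) ^ 2 := pow_lt_pow_left₀ h6 hs0.le (by norm_num)
    rw [div_pow, one_pow, Real.sq_sqrt (by norm_num)] at h7
    exact h7
  have hs1 : s < 1 := by nlinarith
  have hw := F.win s (1 / 2 - s ^ 2) hs0 hs1 (by linarith) (by linarith)
  have e1 : s ^ 2 + (1 / 2 - s ^ 2) = 1 / 2 := by ring
  rw [e1] at hw
  obtain ⟨m1, hm1⟩ := eventually_atTop.1 (gt_mono t')
  obtain ⟨m2, hm2⟩ := eventually_atTop.1 hw
  obtain ⟨m3, hm3⟩ := eventually_atTop.1 (log_top.eventually_ge_atTop (2 / (s - t') + 2))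
  have hsq : Tendsto (fun n : ℕ => √(n : ℝ)) atTop atTop := Real.tendsto_sqrt_atTop.comp tendsto_natCast_atTop_atTop
  obtain ⟨m4, hm4⟩ := eventually_atTop.1 (hsq.eventually_ge_atTop 1)
  obtain ⟨m0, hm0⟩ : ∃ m0 : ℕ, m0 = m1 + m2 + m3 + m4 + 3 := ⟨_, rfl⟩
  filter_upwards [eventually_gt_atTop ⌈Gt t' m0⌉₊, eventually_ge_atTop 2] with k hk hk2
  have hkm : Gt t' m0 < k := lt_of_le_of_lt (Nat.le_ceil _) (by exact_mod_cast hk)
  -- the first place
  have hex : ∃ m : ℕ, m0 ≤ m ∧ (k : ℝ) ≤ Gt t' m := by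
    obtain ⟨m, h7, h8⟩ := (((gt_top t').eventually_ge_atTop (k : ℝ)).and (eventually_ge_atTop m0)).exists
    exact ⟨m, h8, h7⟩
  classical
  obtain ⟨Y, hY⟩ : ∃ Y : ℕ, Y = Nat.find hex := ⟨_, rfl⟩
  obtain ⟨hY1, hY2⟩ := Nat.find_spec hex
  rw [← hY] at hY1 hY2
  have hYne : Y ≠ m0 := by
    intro h7
    rw [h7] at hY2
    linarith
  obtain ⟨Z, hZ⟩ : ∃ Z : ℕ, Y = Z + 1 := ⟨Y - 1, by omega⟩
  have hZm : m0 ≤ Z := by omega
  have hZk : Gt t' Z < k := by
    have h7 := Nat.find_min hex (show Z < Nat.find hex by rw [← hY]; omega)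
    by_contra hcon
    exact h7 ⟨hZm, not_lt.1 hcon⟩
  obtain ⟨n, hn1, hn2, hn3⟩ := hm2 Y (by omega)
  have hYn : Gt t' Y ≤ Gt t' n := hm1 Y (by omega) n hn1.le
  -- the count is small
  have hb : Bad u v k n := by
    refine Or.inr ?_
    have h7 := fn_diff_le (m := Z) (n := n) (by omega) (by omega)
    have hLZ := hm3 Z (by omega)
    have hd0 : 0 < s - t' := by linarith
    have hq0 : 0 < 2 / (s - t') := by positivity
    have hZ0 : (1 : ℝ) ≤ √(Z : ℝ) := hm4 Z (by omega)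
    have hZn : √(Z : ℝ) ≤ √(n : ℝ) := Real.sqrt_le_sqrt (by exact_mod_cast (by omega : Z ≤ n))
    have hYn2 : √(Y : ℝ) ≤ √(n : ℝ) := Real.sqrt_le_sqrt (by exact_mod_cast hn1.le)
    have h8 : ((n : ℝ) - Z) ≤ 2 * √(n : ℝ) := by
      rw [← Real.sqrt_eq_rpow] at hn2
      have : (Y : ℝ) = Z + 1 := by rw [hZ]; push_cast; ring
      linarith
    have h9 : ((n : ℝ) - Z) / (2 * Real.log Z) ≤ (s - t') / 2 * √(n : ℝ) := by
      rw [div_le_iff₀ (by linarith)]
      have h10 : 2 ≤ (s - t') * Real.log Z := by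
        have h11 : 2 / (s - t') ≤ Real.log Z := by linarith
        rw [div_le_iff₀ hd0] at h11
        linarith
      have h12 : 0 ≤ √(n : ℝ) := Real.sqrt_nonneg _
      calc (n : ℝ) - Z ≤ 2 * √(n : ℝ) := h8
        _ ≤ ((s - t') * Real.log Z) * √(n : ℝ) := mul_le_mul_of_nonneg_right h10 h12
        _ = _ := by ring
    have h13 : Gt s n < k := by
      unfold Gt at hZk ⊢
      have h14 : t' * √(Z : ℝ) ≤ t' * √(n : ℝ) := mul_le_mul_of_nonneg_left hZn ht0.le
      have h15 : 0 < (s - t') / 2 * √(n : ℝ) := by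
        have : 0 < √(n : ℝ) := by linarith
        positivity
      have h16 : s * √(n : ℝ) = t' * √(n : ℝ) + 2 * ((s - t') / 2 * √(n : ℝ)) := by ring
      linarith
    have h17 : (v n : ℝ) < k := lt_of_le_of_lt hn3 h13
    exact_mod_cast h17
  have hNn := le_nk F hb
  have h18 : Gt t' n ≤ Gt t' (Nk u v k) := hm1 n (by omega) _ hNn
  have h19 : 0 < Nk u v k := by omega
  rw [lt_th h19]
  have h20 : Gt t' (Nk u v k) < Gt t (Nk u v k) := by
    unfold Gt
    have h21 : (0 : ℝ) < √(Nk u v k : ℝ) := Real.sqrt_pos.2 (by exact_mod_cast h19)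
    have := mul_lt_mul_of_pos_right ht' h21
    linarith
  linarith

end Pool.Agent.Q197.OT
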