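import Pool.Agent.Q197.OT.As

/-!
# The facts about the model which are used
-/

set_option autoImplicit false
set_option linter.unusedSectionVars false

namespace Pool.Agent.Q197.OT

open Finset MeasureTheory Filter Pool.Agent.Q120.ET Pool.Agent.Q120.MF Pool.Agent.Q120.AD Pool.Agent.Q120.NC
  Pool.Agent.Q120.TD
open scoped Topology

open Classical in
/-- Facts about the counts `u n`, `v n` in the two intervals. -/
structure Facts (u v : ℕ → ℕ) : Prop where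
  up : ∀ t : ℝ, 1 < t → ∀ᶠ n : ℕ in atTop, Gt t n ≤ u n ∧ Gt t n ≤ v n
  win : ∀ t δ : ℝ, 0 < t → t < 1 → 0 < δ → t ^ 2 + δ ≤ 1 → ∀ᶠ Y : ℕ in atTop, ∃ n : ℕ, Y < n ∧
    (n : ℝ) ≤ Y + (Y : ℝ) ^ (t ^ 2 + δ) ∧ (v n : ℝ) ≤ Gt t n
  cnt : ∀ t δ : ℝ, 0 < t → t < 1 → 0 < δ → ∃ C : ℝ, 0 ≤ C ∧ ∀ N : ℕ,
    (((Icc 1 N).filter (fun n => (u n : ℝ) < Gt t n ∨ (v n : ℝ) < Gt t n)).card : ℝ) ≤ C * (N : ℝ) ^ (1 - t ^ 2 + δ)
  triv : ∀ n, u n ≤ n + 1 ∧ v n ≤ n + 1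

theorem gt_anti {s t : ℝ} (h : s ≤ t) (n : ℕ) : Gt t n ≤ Gt s n := by
  unfold Gt
  have := mul_le_mul_of_nonneg_right h (Real.sqrt_nonneg (n : ℝ))
  linarith

variable {Ω : Type*} [MeasurableSpace Ω] {μ : Measure Ω} [IsProbabilityMeasure μ] {A : Ω → Set ℕ}

/-- the number of elements in `[n ^ 2 - n, n ^ 2]` -/
noncomputable def um (S : Set ℕ) (n : ℕ) : ℕ := (S ∩ Set.Icc (n ^ 2 - n) (n ^ 2)).ncard

/-- the number of elements in `[n ^ 2, n ^ 2 + n]` -/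
noncomputable def up (S : Set ℕ) (n : ℕ) : ℕ := (S ∩ Set.Icc (n ^ 2) (n ^ 2 + n)).ncard

theorem ncard_eq' (A : Ω → Set ℕ) (W : Finset ℕ) (ω : Ω) : (A ω ∩ (W : Set ℕ)).ncard = (tr A W ω).card := by
  rw [← Set.ncard_coe_finset]
  congr 1
  ext n
  rw [Finset.mem_coe, mem_tr]
  exact and_comm

theorem um_eq (A : Ω → Set ℕ) (ω : Ω) {n : ℕ} (hn : 3 ≤ n) : um (A ω) n = (tr A (opp (fun i => i ^ 2 - i) n) ω).card := by
  unfold um
  rw [← ncard_eq']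
  unfold opp
  rw [if_pos hn, Finset.coe_Icc, Nat.sub_add_cancel (Nat.le_self_pow (by norm_num) n)]

theorem up_eq (A : Ω → Set ℕ) (ω : Ω) {n : ℕ} (hn : 3 ≤ n) : up (A ω) n = (tr A (opp (fun i => i ^ 2) n) ω).card := by
  unfold up
  rw [← ncard_eq']
  unfold opp
  rw [if_pos hn, Finset.coe_Icc]

theorem ncard_triv (S : Set ℕ) (a b : ℕ) : (S ∩ Set.Icc a b).ncard ≤ b + 1 - a := by
  have h1 : (S ∩ Set.Icc a b).ncard ≤ (Set.Icc a b).ncard := Set.ncard_le_ncard Set.inter_subset_right (Set.finite_Icc a b)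
  have h2 : (Set.Icc a b).ncard = b + 1 - a := by
    rw [← Finset.coe_Icc, Set.ncard_coe_finset, Nat.card_Icc]
  omega

theorem lo_minus (i j : ℕ) (hi : 3 ≤ i) (hij : i < j) : i ^ 2 - i + i < j ^ 2 - j := by
  have h1 : i ≤ i ^ 2 := Nat.le_self_pow (by norm_num) i
  have h2 : (i + 1) ^ 2 + (j - (i + 1)) ≤ j ^ 2 := by
    obtain ⟨k, rfl⟩ : ∃ k, j = (i + 1) + k := ⟨j - (i + 1), by omega⟩
    have e1 : (i + 1 + k) ^ 2 = (i + 1) ^ 2 + 2 * (i + 1) * k + k ^ 2 := by ring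
    rw [e1]
    have e2 : k ≤ 2 * (i + 1) * k := Nat.le_mul_of_pos_left _ (by omega)
    omega
  have h3 : (i + 1) ^ 2 = i ^ 2 + 2 * i + 1 := by ring
  omega

theorem lo_plus (i j : ℕ) (hi : 3 ≤ i) (hij : i < j) : i ^ 2 + i < j ^ 2 := by
  have h2 : (i + 1) ^ 2 ≤ j ^ 2 := Nat.pow_le_pow_left (by omega) 2
  have h3 : (i + 1) ^ 2 = i ^ 2 + 2 * i + 1 := by ring
  omega

/-- **The facts hold almost surely.** -/
theorem ae_facts (hA : IsCramer μ A) : ∀ᵐ ω ∂μ, Facts (um (A ω)) (up (A ω)) := by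
  classical
  have hj0 : ∀ j : ℕ, (0 : ℝ) < 1 / ((j : ℝ) + 1) := fun j => by positivity
  have hj1 : ∀ j : ℕ, 1 / ((j : ℝ) + 1) ≤ 1 := fun j => by
    rw [div_le_one (by positivity)]
    linarith [Nat.cast_nonneg (α := ℝ) j]
  have hm1 : ∀ i, i ^ 2 - i ≤ (fun i : ℕ => i ^ 2 - i) i := fun i => le_refl _
  have hm2 : ∀ i, (fun i : ℕ => i ^ 2 - i) i ≤ i ^ 2 := fun i => Nat.sub_le _ _
  have hp1 : ∀ i, i ^ 2 - i ≤ (fun i : ℕ => i ^ 2) i := fun i => Nat.sub_le _ _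
  have hp2 : ∀ i, (fun i : ℕ => i ^ 2) i ≤ i ^ 2 := fun i => le_refl _
  have hA1 := fun j : ℕ => opp_law hA hm1 hm2 lo_minus (hj0 j) (hj1 j)
  have hB1 := fun j : ℕ => opp_law hA hp1 hp2 lo_plus (hj0 j) (hj1 j)
  have hwin : ∀ᵐ ω ∂μ, ∀ q : ℚ × ℚ, (0 : ℝ) < q.1 → (0 : ℝ) < q.2 → (q.1 : ℝ) ^ 2 + q.2 ≤ 1 →
      ∀ᶠ Y : ℕ in atTop, ∃ n : ℕ, Y < n ∧ (n : ℝ) ≤ Y + (Y : ℝ) ^ ((q.1 : ℝ) ^ 2 + q.2) ∧
        ((tr A (opp (fun i => i ^ 2) n) ω).card : ℝ) ≤ Gt q.1 n := by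
    rw [ae_all_iff]
    intro q
    by_cases h : (0 : ℝ) < q.1 ∧ (0 : ℝ) < q.2 ∧ (q.1 : ℝ) ^ 2 + q.2 ≤ 1
    · filter_upwards [ae_win hA hp1 hp2 lo_plus h.1 h.2.1 h.2.2] with ω h1 _ _ _
      exact h1
    · exact Eventually.of_forall (fun ω h1 h2 h3 => absurd ⟨h1, h2, h3⟩ h)
  have hcnt : ∀ᵐ ω ∂μ, ∀ q : ℚ × ℚ, (0 : ℝ) < q.1 → (0 : ℝ) < q.2 → 0 ≤ 1 - (q.1 : ℝ) ^ 2 + q.2 →
      (∃ C : ℝ, 0 ≤ C ∧ ∀ N : ℕ,
        (((Icc 1 N).filter (fun n => ((tr A (opp (fun i => i ^ 2 - i) n) ω).card : ℝ) < Gt q.1 n)).card : ℝ) ≤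
          C * (N : ℝ) ^ (1 - (q.1 : ℝ) ^ 2 + q.2)) ∧
      (∃ C : ℝ, 0 ≤ C ∧ ∀ N : ℕ,
        (((Icc 1 N).filter (fun n => ((tr A (opp (fun i => i ^ 2) n) ω).card : ℝ) < Gt q.1 n)).card : ℝ) ≤
          C * (N : ℝ) ^ (1 - (q.1 : ℝ) ^ 2 + q.2)) := by
    rw [ae_all_iff]
    intro q
    by_cases h : (0 : ℝ) < q.1 ∧ (0 : ℝ) < q.2 ∧ 0 ≤ 1 - (q.1 : ℝ) ^ 2 + q.2
    · filter_upwards [ae_cnt hA hm1 hm2 h.1 h.2.1 h.2.2, ae_cnt hA hp1 hp2 h.1 h.2.1 h.2.2] with ω h1 h2 _ _ _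
      exact ⟨h1, h2⟩
    · exact Eventually.of_forall (fun ω h1 h2 h3 => absurd ⟨h1, h2, h3⟩ h)
  filter_upwards [ae_all_iff.2 hA1, ae_all_iff.2 hB1, hwin, hcnt] with ω h1 h2 h3 h4
  refine ⟨?_, ?_, ?_, ?_⟩
  · intro t ht
    obtain ⟨j, hj⟩ := exists_nat_one_div_lt (show 0 < t - 1 by linarith)
    filter_upwards [(h1 j).1, (h2 j).1, eventually_ge_atTop 3] with n g1 g2 g3
    rw [← um_eq A ω g3] at g1
    rw [← up_eq A ω g3] at g2
    have hs := Real.sqrt_nonneg (n : ℝ)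
    have e1 : (1 + 1 / ((j : ℝ) + 1)) * √(n : ℝ) ≤ t * √(n : ℝ) := mul_le_mul_of_nonneg_right (by linarith) hs
    rw [abs_le] at g1 g2
    unfold Gt fn
    constructor
    · linarith [g1.1]
    · linarith [g2.1]
  · intro t δ ht ht1 hδ htδ
    -- a rational number slightly larger than `t`
    obtain ⟨q, hq1, hq2⟩ := exists_rat_btwn (show t < t + min (1 - t) (δ / 8) by
      have : 0 < min (1 - t) (δ / 8) := lt_min (by linarith) (by positivity)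
      linarith)
    obtain ⟨r, hr1, hr2⟩ := exists_rat_btwn (show (0 : ℝ) < δ / 4 by positivity)
    have hq3 : (q : ℝ) < t + δ / 8 := lt_of_lt_of_le hq2 (by linarith [min_le_right (1 - t) (δ / 8)])
    have hq4 : (q : ℝ) < 1 := lt_of_lt_of_le hq2 (by linarith [min_le_left (1 - t) (δ / 8)])
    have hδ1 : δ ≤ 1 := by nlinarith [sq_nonneg t]
    have hexp : (q : ℝ) ^ 2 + r ≤ t ^ 2 + δ := by nlinarith
    have h5 := h3 (q, r) (by linarith) hr1 (hexp.trans htδ)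
    filter_upwards [h5, eventually_ge_atTop 3] with Y h6 h7
    obtain ⟨n, g1, g2, g3⟩ := h6
    have hY1 : (1 : ℝ) ≤ Y := by exact_mod_cast (by omega : 1 ≤ Y)
    refine ⟨n, g1, ?_, ?_⟩
    · have := Real.rpow_le_rpow_of_exponent_le hY1 hexp
      exact g2.trans (by linarith)
    · rw [up_eq A ω (by omega)]
      exact g3.trans (gt_anti hq1.le n)
  · intro t δ ht ht1 hδ
    obtain ⟨q, hq1, hq2⟩ := exists_rat_btwn (show t - min (t / 2) (δ / 8) < t by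
      have : 0 < min (t / 2) (δ / 8) := lt_min (by linarith) (by positivity)
      linarith)
    obtain ⟨r, hr1, hr2⟩ := exists_rat_btwn (show (0 : ℝ) < δ / 4 by positivity)
    have hq3 : t - δ / 8 < (q : ℝ) := lt_of_le_of_lt (by linarith [min_le_right (t / 2) (δ / 8)]) hq1
    have hq4 : 0 < (q : ℝ) := lt_of_le_of_lt (by linarith [min_le_left (t / 2) (δ / 8)]) hq1
    have hq5 : (q : ℝ) ^ 2 ≤ 1 := by nlinarith
    have hexp : 1 - (q : ℝ) ^ 2 + r ≤ 1 - t ^ 2 + δ := by nlinarith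
    obtain ⟨⟨C1, hC1, h5⟩, C2, hC2, h6⟩ := h4 (q, r) hq4 hr1 (by linarith)
    refine ⟨C1 + C2 + 2, by linarith, fun N => ?_⟩
    rcases Nat.eq_zero_or_pos N with hN | hN
    · subst hN
      have : ((Icc 1 0).filter (fun n => (um (A ω) n : ℝ) < Gt t n ∨ (up (A ω) n : ℝ) < Gt t n)) = ∅ := by
        rw [Finset.filter_eq_empty_iff]
        intro n hn
        rw [mem_Icc] at hn
        omega
      rw [this, card_empty, Nat.cast_zero]
      exact mul_nonneg (by linarith) (Real.rpow_nonneg le_rfl _)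
    have hN1 : (1 : ℝ) ≤ N := by exact_mod_cast hN
    have hsub : ((Icc 1 N).filter (fun n => (um (A ω) n : ℝ) < Gt t n ∨ (up (A ω) n : ℝ) < Gt t n)) ⊆
        ((Icc 1 N).filter (fun n => ((tr A (opp (fun i => i ^ 2 - i) n) ω).card : ℝ) < Gt q n)) ∪
        ((Icc 1 N).filter (fun n => ((tr A (opp (fun i => i ^ 2) n) ω).card : ℝ) < Gt q n)) ∪ {1, 2} := by
      intro n hn
      rw [mem_filter, mem_Icc] at hn
      rw [mem_union, mem_union, mem_filter, mem_filter, mem_Icc, mem_insert, mem_singleton]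
      rcases Nat.lt_or_ge n 3 with h7 | h7
      · exact Or.inr (by omega)
      · have h8 := gt_anti hq2.le n
        rw [um_eq A ω h7, up_eq A ω h7] at hn
        rcases hn.2 with h9 | h9
        · exact Or.inl (Or.inl ⟨hn.1, lt_of_lt_of_le h9 h8⟩)
        · exact Or.inl (Or.inr ⟨hn.1, lt_of_lt_of_le h9 h8⟩)
    have h7 := (card_le_card hsub).trans ((card_union_le _ _).trans (Nat.add_le_add_right (card_union_le _ _) _))
    have h8 : (({1, 2} : Finset ℕ).card) = 2 := by decide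
    rw [h8] at h7
    have h9 : ((((Icc 1 N).filter (fun n => (um (A ω) n : ℝ) < Gt t n ∨ (up (A ω) n : ℝ) < Gt t n)).card : ℕ) : ℝ) ≤
        (((Icc 1 N).filter (fun n => ((tr A (opp (fun i => i ^ 2 - i) n) ω).card : ℝ) < Gt q n)).card : ℝ) +
        (((Icc 1 N).filter (fun n => ((tr A (opp (fun i => i ^ 2) n) ω).card : ℝ) < Gt q n)).card : ℝ) + 2 := by
      exact_mod_cast h7
    have h10 := Real.rpow_le_rpow_of_exponent_le hN1 hexp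
    have h11 : 1 ≤ (N : ℝ) ^ (1 - t ^ 2 + δ) := Real.one_le_rpow hN1 (by nlinarith)
    have h12 := h5 N
    have h13 := h6 N
    simp only at h12 h13
    have h14 : C1 * (N : ℝ) ^ (1 - (q : ℝ) ^ 2 + r) ≤ C1 * (N : ℝ) ^ (1 - t ^ 2 + δ) := mul_le_mul_of_nonneg_left h10 hC1
    have h15 : C2 * (N : ℝ) ^ (1 - (q : ℝ) ^ 2 + r) ≤ C2 * (N : ℝ) ^ (1 - t ^ 2 + δ) := mul_le_mul_of_nonneg_left h10 hC2
    have h16 : (C1 + C2 + 2) * (N : ℝ) ^ (1 - t ^ 2 + δ) = C1 * (N : ℝ) ^ (1 - t ^ 2 + δ) + C2 * (N : ℝ) ^ (1 - t ^ 2 + δ) +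
        2 * (N : ℝ) ^ (1 - t ^ 2 + δ) := by ring
    rw [h16]
    linarith
  · intro n
    have hnn : n ≤ n ^ 2 := Nat.le_self_pow (by norm_num) n
    constructor
    · have := ncard_triv (A ω) (n ^ 2 - n) (n ^ 2)
      unfold um
      omega
    · have := ncard_triv (A ω) (n ^ 2) (n ^ 2 + n)
      unfold up
      omega

end Pool.Agent.Q197.OT
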