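import Pool.Agent.Q120.TD.Opp

/-!
# Probabilities of small counts on Oppermann's intervals
-/

set_option autoImplicit false
set_option linter.unusedSectionVars false

namespace Pool.Agent.Q197.OT

open Finset MeasureTheory Filter Pool.Agent.Q120.ET Pool.Agent.Q120.MF Pool.Agent.Q120.AD Pool.Agent.Q120.NC
  Pool.Agent.Q120.TD
open scoped Topology

/-- the expected number of elements -/
noncomputable def fn (n : ℕ) : ℝ := (n : ℝ) / (2 * Real.log n)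

/-- the expected number less `t √n` -/
noncomputable def Gt (t : ℝ) (n : ℕ) : ℝ := fn n - t * √(n : ℝ)

theorem low_ge {lo : ℕ → ℕ} (hlo1 : ∀ i, i ^ 2 - i ≤ lo i) (hlo2 : ∀ i, lo i ≤ i ^ 2)
    (hd : ∀ i j, 3 ≤ i → i < j → lo i + i < lo j) {t δ : ℝ} (ht : 0 < t) (hδ : 0 < δ) :
    ∀ᶠ n : ℕ in atTop, (n : ℝ) ^ (-(t ^ 2 + δ)) ≤
      ∑ T ∈ (opp lo n).powerset with (T.card : ℝ) ≤ Gt t n, cramerOn (opp lo n) T := by
  classical
  have hW := opp_three hlo1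
  have hdis := opp_disjoint hd
  have hμ := mu_tendsto hlo1 hlo2
  obtain ⟨κ, hκ⟩ : ∃ κ : ℝ, κ = min 1 (δ / (4 * (2 * t + 1))) := ⟨_, rfl⟩
  have hκ0 : 0 < κ := by rw [hκ]; exact lt_min one_pos (by positivity)
  have hκ1 : κ ≤ 1 := by rw [hκ]; exact min_le_left _ _
  have hκ2 : κ * (2 * t + 1) ≤ δ / 4 := by
    have h1 : κ ≤ δ / (4 * (2 * t + 1)) := by rw [hκ]; exact min_le_right _ _
    rw [le_div_iff₀ (by positivity)] at h1
    linarith
  obtain ⟨c, hc⟩ : ∃ c : ℝ, c = t + κ := ⟨_, rfl⟩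
  have hc0 : 0 < c := by rw [hc]; linarith
  obtain ⟨θ, hθ⟩ : ∃ θ : ℝ, θ = min (1 / 64) (min (κ / (3 * (c + 1))) (δ / (20 * (c ^ 2 + 1)))) := ⟨_, rfl⟩
  have hθ0 : 0 < θ := by
    rw [hθ]
    exact lt_min (by norm_num) (lt_min (by positivity) (by positivity))
  have hθ1 : θ ≤ 1 / 64 := by rw [hθ]; exact min_le_left _ _
  have hθ2 : 3 * θ * (c + 1) ≤ κ := by
    have h1 : θ ≤ κ / (3 * (c + 1)) := by rw [hθ]; exact (min_le_right _ _).trans (min_le_left _ _)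
    rw [le_div_iff₀ (by positivity)] at h1
    linarith
  have hθ3 : 5 * θ * (c ^ 2 + 1) ≤ δ / 4 := by
    have h1 : θ ≤ δ / (20 * (c ^ 2 + 1)) := by rw [hθ]; exact (min_le_right _ _).trans (min_le_right _ _)
    rw [le_div_iff₀ (by positivity)] at h1
    linarith
  have hM16 : ∀ᶠ i : ℕ in atTop, 16 ≤ mu (opp lo i) := by
    filter_upwards [hμ.eventually_ge_atTop 16, hl.eventually_ge_atTop 1] with i h1 h2
    rw [le_div_iff₀ (by linarith)] at h1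
    nlinarith
  filter_upwards [facts hμ hc0 hθ0, ev_delta hdis hθ0, eventually_ge_atTop 3, hl.eventually_ge_atTop (1 / θ), hM16,
    mu_near hlo1 hlo2, sc_near hlo1 hlo2 hθ0 (by linarith), ev_sqrt hθ0] with i h1 h2 h2' hlog h16 g1 g2 g3
  obtain ⟨hM, η, hη0, hηθ, h3, h4, h5, h6⟩ := h1
  have hi0 : (0 : ℝ) < i := by
    have : (3 : ℝ) ≤ i := by exact_mod_cast h2'
    linarith
  have hL0 : 0 ≤ Real.log (i : ℝ) := Real.log_natCast_nonneg i
  have hs0 : 0 ≤ √(i : ℝ) := Real.sqrt_nonneg _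
  have e1 := dev_down (hW i) h2 (by linarith) hη0 (by linarith) h16
  have e2 : (i : ℝ) ^ (-(t ^ 2 + δ)) ≤ 1 / 2 * Real.exp (-(η ^ 2 / 2 * (1 + 4 * θ + η) * mu (opp lo i)) - 4 * η * √(mu (opp lo i))) := by
    have e3 : (i : ℝ) ^ (-(t ^ 2 + δ)) = 1 / 2 * Real.exp (Real.log 2 - (t ^ 2 + δ) * Real.log i) := by
      rw [Real.exp_sub, Real.exp_log (by norm_num), Real.rpow_def_of_pos hi0, mul_neg, Real.exp_neg, mul_comm (Real.log (i : ℝ))]
      field_simp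
    rw [e3]
    apply mul_le_mul_of_nonneg_left _ (by norm_num)
    rw [Real.exp_le_exp]
    have e4 : η ^ 2 / 2 * (1 + 4 * θ + η) * mu (opp lo i) = c ^ 2 * Real.log i * (1 + 4 * θ + η) := by
      rw [← h4]; ring
    rw [e4]
    have e5 : Real.log 2 < 1 := by
      have := Real.log_two_lt_d9
      linarith
    rw [div_le_iff₀ hθ0] at hlog
    have e6 : c ^ 2 * Real.log i * (1 + 4 * θ + η) ≤ c ^ 2 * Real.log i * (1 + 5 * θ) :=
      mul_le_mul_of_nonneg_left (by linarith) (by positivity)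
    have e7 : c ^ 2 ≤ t ^ 2 + δ / 4 := by
      rw [hc]
      nlinarith
    have e8 : (c ^ 2 * (1 + 5 * θ) + 5 * θ) * Real.log i ≤ (t ^ 2 + δ / 2) * Real.log i :=
      mul_le_mul_of_nonneg_right (by nlinarith) hL0
    have e9 : (t ^ 2 + δ / 2) * Real.log i ≤ (t ^ 2 + δ) * Real.log i :=
      mul_le_mul_of_nonneg_right (by linarith) hL0
    nlinarith
  refine e2.trans (e1.trans ?_)
  refine sum_le_sum_of_subset_of_nonneg ?_ ?_
  · intro T hT
    rw [mem_filter] at hT ⊢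
    refine ⟨hT.1, le_trans hT.2 ?_⟩
    have e3 : (1 - η) * (1 + 2 * η * θ) * mu (opp lo i) ≤ mu (opp lo i) - η * mu (opp lo i) * (1 - 2 * θ) := by
      have e4 : (1 - η) * (1 + 2 * η * θ) ≤ 1 - η * (1 - 2 * θ) := by nlinarith [mul_pos hη0 hθ0]
      nlinarith
    rw [h3] at e3
    have e5 : (c - 3 * θ * (c + 1) + θ) * √(i : ℝ) ≤ ((1 - 2 * θ) * c - 2 * θ) * sc (opp lo) i := by
      have e6 : 0 ≤ (1 - 2 * θ) * c - 2 * θ := by nlinarith
      have e0 : ((1 - 2 * θ) * c - 2 * θ) * (1 - θ) = c - 3 * θ * (c + 1) + θ + 2 * θ ^ 2 * (c + 1) := by ring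
      have e00 : 0 ≤ 2 * θ ^ 2 * (c + 1) := by positivity
      calc (c - 3 * θ * (c + 1) + θ) * √(i : ℝ) ≤ (((1 - 2 * θ) * c - 2 * θ) * (1 - θ)) * √(i : ℝ) :=
            mul_le_mul_of_nonneg_right (by rw [e0]; linarith) hs0
        _ = ((1 - 2 * θ) * c - 2 * θ) * ((1 - θ) * √(i : ℝ)) := by ring
        _ ≤ _ := mul_le_mul_of_nonneg_left g2.1 e6
    have e7 : (t + θ) * √(i : ℝ) ≤ (c - 3 * θ * (c + 1) + θ) * √(i : ℝ) :=
      mul_le_mul_of_nonneg_right (by rw [hc] at hθ2 ⊢; linarith) hs0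
    rw [abs_le] at g1
    unfold Gt fn
    nlinarith [g1.2]
  · intro T hT _
    rw [mem_filter, mem_powerset] at hT
    exact cramerOn_nonneg (hW i) hT.1

theorem low_le {lo : ℕ → ℕ} (hlo1 : ∀ i, i ^ 2 - i ≤ lo i) (hlo2 : ∀ i, lo i ≤ i ^ 2) {t δ : ℝ} (ht : 0 < t) (hδ : 0 < δ) :
    ∀ᶠ n : ℕ in atTop, ∑ T ∈ (opp lo n).powerset with (T.card : ℝ) < Gt t n, cramerOn (opp lo n) T ≤
      (n : ℝ) ^ (-(t ^ 2 - δ)) := by
  classical
  have hW := opp_three hlo1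
  have hμ := mu_tendsto hlo1 hlo2
  obtain ⟨κ, hκ⟩ : ∃ κ : ℝ, κ = min (t / 2) (δ / (2 * t)) := ⟨_, rfl⟩
  have hκ0 : 0 < κ := by rw [hκ]; exact lt_min (by linarith) (by positivity)
  have hκ1 : κ ≤ t / 2 := by rw [hκ]; exact min_le_left _ _
  have hκ2 : 2 * t * κ ≤ δ := by
    have h1 : κ ≤ δ / (2 * t) := by rw [hκ]; exact min_le_right _ _
    rw [le_div_iff₀ (by positivity)] at h1
    linarith
  obtain ⟨c, hc⟩ : ∃ c : ℝ, c = t - κ := ⟨_, rfl⟩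
  have hc0 : 0 < c := by rw [hc]; linarith
  obtain ⟨θ, hθ⟩ : ∃ θ : ℝ, θ = min (1 / 2) (κ / (c + 1)) := ⟨_, rfl⟩
  have hθ0 : 0 < θ := by
    rw [hθ]
    exact lt_min (by norm_num) (by positivity)
  have hθ1 : θ ≤ 1 / 2 := by rw [hθ]; exact min_le_left _ _
  have hθ2 : θ * (c + 1) ≤ κ := by
    have h1 : θ ≤ κ / (c + 1) := by rw [hθ]; exact min_le_right _ _
    rwa [le_div_iff₀ (by positivity)] at h1
  filter_upwards [facts hμ hc0 hθ0, eventually_ge_atTop 3,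
    mu_near hlo1 hlo2, sc_near hlo1 hlo2 hθ0 (by linarith), ev_sqrt hθ0] with i h1 h2' g1 g2 g3
  obtain ⟨hM, η, hη0, hηθ, h3, h4, h5, h6⟩ := h1
  have hi1 : (1 : ℝ) ≤ i := by exact_mod_cast (by omega : 1 ≤ i)
  have hi0 : (0 : ℝ) < i := by linarith
  have hL0 : 0 ≤ Real.log (i : ℝ) := Real.log_natCast_nonneg i
  have hs0 : 0 ≤ √(i : ℝ) := Real.sqrt_nonneg _
  have e1 := tail_down (hW i) hη0 (by linarith)
  have e2 : Real.exp (-(η ^ 2 / 2 * mu (opp lo i))) ≤ (i : ℝ) ^ (-(t ^ 2 - δ)) := by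
    rw [h4, Real.rpow_def_of_pos hi0, Real.exp_le_exp]
    have e7 : t ^ 2 - δ ≤ c ^ 2 := by
      rw [hc]
      nlinarith
    nlinarith
  refine le_trans ?_ (e1.trans e2)
  refine sum_le_sum_of_subset_of_nonneg ?_ ?_
  · intro T hT
    rw [mem_filter] at hT ⊢
    refine ⟨hT.1, lt_of_lt_of_le hT.2 ?_⟩
    have e3 : (1 - η) * mu (opp lo i) = mu (opp lo i) - c * sc (opp lo) i := by rw [← h3]; ring
    rw [e3]
    have e4 : c * sc (opp lo) i ≤ c * ((1 + θ) * √(i : ℝ)) := mul_le_mul_of_nonneg_left g2.2 hc0.le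
    have e5 : (c * (1 + θ) + θ) * √(i : ℝ) ≤ t * √(i : ℝ) := mul_le_mul_of_nonneg_right (by rw [hc] at hθ2 ⊢; linarith) hs0
    rw [abs_le] at g1
    unfold Gt fn
    nlinarith [g1.1]
  · intro T hT _
    rw [mem_filter, mem_powerset] at hT
    exact cramerOn_nonneg (hW i) hT.1

end Pool.Agent.Q197.OT
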